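import Pool.Agent.U281.CY.Eb
import Pool.Agent.N537.RS.Inert
import Pool.Agent.N537.RS.Meas
import Pool.Agent.N537.RS.Int
import Pool.Agent.N537.RS.Cell
import Pool.Agent.N537.RS.LA
import Pool.Agent.N537.RS.Tau

/-!
# The dual inequality
-/

set_option autoImplicit false

open MeasureTheory Set Filter Topology
open scoped Matrix ComplexOrder

namespace Pool.Agent.U281.CY

open LTd Pool.Agent.N537.RS

/-- complex valued partial derivatives -/
noncomputable def cd {m : ℕ} (k : Fin m) (f : (Fin m → ℝ) → ℂ) (z : Fin m → ℝ) : ℂ :=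
  fderiv ℝ f z (Pi.single k 1)

/-- the energy density -/
noncomputable def KE {m : ℕ} (f : (Fin (m + 1) → ℝ) → ℂ) (z : Fin (m + 1) → ℝ) : ℝ :=
  ‖cd 0 f z‖ ^ 2 + Real.exp (2 * z 0) * ∑ k : Fin m, ‖cd k.succ f z‖ ^ 2

theorem nsq {M : ℕ} (v : Fin M → ℂ) (x : Fin M → ℝ) :
    ‖∑ j, v j * (x j : ℂ)‖ ^ 2 = ∑ i, ∑ j, (star (v i) * v j).re * (x i * x j) := by
  have h1 : ((‖∑ j, v j * (x j : ℂ)‖ ^ 2 : ℝ) : ℂ) =
      star (∑ j, v j * (x j : ℂ)) * ∑ j, v j * (x j : ℂ) := by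
    rw [Complex.star_def, Complex.conj_mul']
    push_cast
    rfl
  have h2 : star (∑ j, v j * (x j : ℂ)) * ∑ j, v j * (x j : ℂ) =
      ∑ i, ∑ j, (star (v i) * v j) * ((x i * x j : ℝ) : ℂ) := by
    rw [star_sum, Finset.sum_mul_sum]
    refine Finset.sum_congr rfl fun i _ => Finset.sum_congr rfl fun j _ => ?_
    have h5 : star ((x i : ℝ) : ℂ) = (x i : ℂ) := Complex.conj_ofReal _
    rw [star_mul', h5]
    push_cast
    ring
  have h3 := congrArg Complex.re (h1.trans h2)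
  rw [Complex.ofReal_re, Complex.re_sum] at h3
  rw [h3]
  refine Finset.sum_congr rfl fun i _ => ?_
  rw [Complex.re_sum]
  exact Finset.sum_congr rfl fun j _ => Complex.re_mul_ofReal _ _

theorem cd_sum {m M : ℕ} (ψ : Fin M → (Fin m → ℝ) → ℝ) (hψ : ∀ j, ContDiff ℝ 1 (ψ j))
    (v : Fin M → ℂ) (k : Fin m) (z : Fin m → ℝ) :
    cd k (fun z => ∑ j, v j * (ψ j z : ℂ)) z = ∑ j, v j * (pd k (ψ j) z : ℂ) := by
  unfold cd pd
  have h1 : ∀ j, HasFDerivAt (fun z => v j * (ψ j z : ℂ))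
      (v j • Complex.ofRealCLM.comp (fderiv ℝ (ψ j) z)) z := fun j =>
    (Complex.ofRealCLM.hasFDerivAt.comp z
      (((hψ j).differentiable one_ne_zero) z).hasFDerivAt).const_mul (v j)
  have h2 : HasFDerivAt (fun z => ∑ j, v j * (ψ j z : ℂ))
      (∑ j, v j • Complex.ofRealCLM.comp (fderiv ℝ (ψ j) z)) z :=
    HasFDerivAt.fun_sum fun j _ => h1 j
  rw [h2.fderiv]
  simp

theorem KE_sum {m M : ℕ} (V : (Fin (m + 1) → ℝ) → ℝ) (ψ : Fin M → (Fin (m + 1) → ℝ) → ℝ)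
    (hψ : ∀ j, ContDiff ℝ 1 (ψ j)) (v : Fin M → ℂ) (z : Fin (m + 1) → ℝ) :
    KE (fun z => ∑ j, v j * (ψ j z : ℂ)) z -
      Real.exp (2 * z 0) * (V z * ‖∑ j, v j * (ψ j z : ℂ)‖ ^ 2) =
      ∑ i, ∑ j, (star (v i) * v j).re * FF V (ψ i) (ψ j) z := by
  unfold KE
  simp only [cd_sum ψ hψ, nsq]
  have hq : ∑ k : Fin m, ∑ i, ∑ j, (star (v i) * v j).re *
      (pd k.succ (ψ i) z * pd k.succ (ψ j) z) =
      ∑ i, ∑ j, (star (v i) * v j).re * ∑ k : Fin m, pd k.succ (ψ i) z * pd k.succ (ψ j) z := by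
    rw [Finset.sum_comm]
    refine Finset.sum_congr rfl fun i _ => ?_
    rw [Finset.sum_comm]
    refine Finset.sum_congr rfl fun j _ => ?_
    rw [Finset.mul_sum]
  rw [hq]
  rw [Finset.mul_sum, Finset.mul_sum, Finset.mul_sum, ← Finset.sum_add_distrib,
    ← Finset.sum_sub_distrib]
  refine Finset.sum_congr rfl fun i _ => ?_
  rw [Finset.mul_sum, Finset.mul_sum, Finset.mul_sum, ← Finset.sum_add_distrib,
    ← Finset.sum_sub_distrib]
  refine Finset.sum_congr rfl fun j _ => ?_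
  unfold FF
  ring

/-- real matrices as complex ones -/
noncomputable def cm {M : ℕ} (B : Matrix (Fin M) (Fin M) ℝ) : Matrix (Fin M) (Fin M) ℂ :=
  B.map (fun x : ℝ => (x : ℂ))

theorem cm_bil {M : ℕ} (B : Matrix (Fin M) (Fin M) ℝ) (u v : Fin M → ℂ) :
    star u ⬝ᵥ (cm B *ᵥ v) = ∑ i, ∑ j, star (u i) * v j * (B i j : ℂ) := by
  unfold dotProduct Matrix.mulVec dotProduct
  refine Finset.sum_congr rfl fun i _ => ?_
  rw [Finset.mul_sum]
  refine Finset.sum_congr rfl fun j _ => ?_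
  show star (u i) * ((B i j : ℂ) * v j) = _
  ring

theorem cm_re {M : ℕ} (B : Matrix (Fin M) (Fin M) ℝ) (v : Fin M → ℂ) :
    (star v ⬝ᵥ (cm B *ᵥ v)).re = ∑ i, ∑ j, (star (v i) * v j).re * B i j := by
  rw [cm_bil, Complex.re_sum]
  refine Finset.sum_congr rfl fun i _ => ?_
  rw [Complex.re_sum]
  exact Finset.sum_congr rfl fun j _ => Complex.re_mul_ofReal _ _

theorem cm_herm {M : ℕ} {B : Matrix (Fin M) (Fin M) ℝ} (hB : B.IsHermitian) :
    (cm B).IsHermitian := by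
  apply Matrix.IsHermitian.ext
  intro i j
  show star ((B j i : ℝ) : ℂ) = (B i j : ℂ)
  rw [Complex.star_def, Complex.conj_ofReal]
  have := hB.apply i j
  rw [star_trivial] at this
  rw [this]

/-! ### the matrices -/

/-- the matrix of the form -/
noncomputable def AR {m M : ℕ} (ψ : Fin M → (Fin (m + 1) → ℝ) → ℝ) (W : (Fin (m + 1) → ℝ) → ℝ) :
    Matrix (Fin M) (Fin M) ℝ := Matrix.of fun i j => ∫ z, FF W (ψ i) (ψ j) z

/-- the Gram matrix with the weight `e^{2t}` -/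
noncomputable def MR {m M : ℕ} (ψ : Fin M → (Fin (m + 1) → ℝ) → ℝ) :
    Matrix (Fin M) (Fin M) ℝ := Matrix.of fun i j => ∫ z, Real.exp (2 * z 0) * (ψ i z * ψ j z)

theorem AR_herm {m M : ℕ} (ψ : Fin M → (Fin (m + 1) → ℝ) → ℝ) (W : (Fin (m + 1) → ℝ) → ℝ) :
    (AR ψ W).IsHermitian := by
  apply Matrix.IsHermitian.ext
  intro i j
  rw [star_trivial]
  show ∫ z, FF W (ψ j) (ψ i) z = ∫ z, FF W (ψ i) (ψ j) z
  refine integral_congr_ae (Eventually.of_forall fun z => ?_)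
  unfold FF
  simp only [mul_comm]

theorem MR_herm {m M : ℕ} (ψ : Fin M → (Fin (m + 1) → ℝ) → ℝ) : (MR ψ).IsHermitian := by
  apply Matrix.IsHermitian.ext
  intro i j
  rw [star_trivial]
  show ∫ z, Real.exp (2 * z 0) * (ψ j z * ψ i z) = ∫ z, Real.exp (2 * z 0) * (ψ i z * ψ j z)
  refine integral_congr_ae (Eventually.of_forall fun z => ?_)
  simp only [mul_comm]

theorem mr_int {m M : ℕ} {ψ : Fin M → (Fin (m + 1) → ℝ) → ℝ} (hψ : ∀ j, ContDiff ℝ 1 (ψ j))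
    (hc : ∀ j, HasCompactSupport (ψ j)) (i j : Fin M) :
    Integrable fun z : Fin (m + 1) → ℝ => Real.exp (2 * z 0) * (ψ i z * ψ j z) := by
  refine Continuous.integrable_of_hasCompactSupport ?_ ?_
  · exact Continuous.mul (by fun_prop) ((hψ i).continuous.mul (hψ j).continuous)
  · exact HasCompactSupport.mul_left (hc i).mul_right

theorem AR_shift {m M : ℕ} {ψ : Fin M → (Fin (m + 1) → ℝ) → ℝ} (hψ : ∀ j, ContDiff ℝ 1 (ψ j))
    (hc : ∀ j, HasCompactSupport (ψ j)) {V : (Fin (m + 1) → ℝ) → ℝ} (hV : Continuous V) (τ : ℝ)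
    (i j : Fin M) :
    (AR ψ V + τ • MR ψ) i j = ∫ z, FF (fun z => V z - τ) (ψ i) (ψ j) z := by
  have h1 : Integrable (FF V (ψ i) (ψ j)) :=
    (FF_cs hV (hψ i) (hc i) (hψ j) (hc j)).1.integrable_of_hasCompactSupport
      (FF_cs hV (hψ i) (hc i) (hψ j) (hc j)).2
  have h2 := (mr_int hψ hc i j).const_mul τ
  show (∫ z, FF V (ψ i) (ψ j) z) + τ * (∫ z, Real.exp (2 * z 0) * (ψ i z * ψ j z)) = _
  rw [← integral_const_mul, ← integral_add h1 h2]
  refine integral_congr_ae (Eventually.of_forall fun z => ?_)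
  simp only
  unfold FF
  ring

theorem cm_shift {m M : ℕ} (ψ : Fin M → (Fin (m + 1) → ℝ) → ℝ) (V : (Fin (m + 1) → ℝ) → ℝ)
    (τ : ℝ) : cm (AR ψ V) + (τ : ℂ) • cm (MR ψ) = cm (AR ψ V + τ • MR ψ) := by
  ext i j
  show ((AR ψ V i j : ℝ) : ℂ) + (τ : ℂ) * ((MR ψ i j : ℝ) : ℂ) =
    ((AR ψ V i j + τ * MR ψ i j : ℝ) : ℂ)
  push_cast
  rfl

theorem mbil {m M : ℕ} {ψ : Fin M → (Fin (m + 1) → ℝ) → ℝ} (hψ : ∀ j, ContDiff ℝ 1 (ψ j))
    (hc : ∀ j, HasCompactSupport (ψ j)) (u v : Fin M → ℂ) :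
    star u ⬝ᵥ (cm (MR ψ) *ᵥ v) = ∫ z : Fin (m + 1) → ℝ, (Real.exp (2 * z 0) : ℂ) *
      (star (∑ j, u j * (ψ j z : ℂ)) * ∑ j, v j * (ψ j z : ℂ)) := by
  have hi : ∀ i j, Integrable fun z : Fin (m + 1) → ℝ =>
      ((Real.exp (2 * z 0) * (ψ i z * ψ j z) : ℝ) : ℂ) := fun i j => (mr_int hψ hc i j).ofReal
  have h1 : ∀ z : Fin (m + 1) → ℝ, (Real.exp (2 * z 0) : ℂ) *
      (star (∑ j, u j * (ψ j z : ℂ)) * ∑ j, v j * (ψ j z : ℂ)) =
      ∑ i, ∑ j, star (u i) * v j * ((Real.exp (2 * z 0) * (ψ i z * ψ j z) : ℝ) : ℂ) := by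
    intro z
    rw [star_sum, Finset.sum_mul_sum, Finset.mul_sum]
    refine Finset.sum_congr rfl fun i _ => ?_
    rw [Finset.mul_sum]
    refine Finset.sum_congr rfl fun j _ => ?_
    have h5 : star ((ψ i z : ℝ) : ℂ) = (ψ i z : ℂ) := Complex.conj_ofReal _
    rw [star_mul', h5]
    push_cast
    ring
  rw [cm_bil]
  simp_rw [h1]
  rw [integral_finsetSum _ fun i _ => integrable_finsetSum _ fun j _ => (hi i j).const_mul _]
  refine Finset.sum_congr rfl fun i _ => ?_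
  rw [integral_finsetSum _ fun j _ => (hi i j).const_mul _]
  refine Finset.sum_congr rfl fun j _ => ?_
  rw [integral_const_mul]
  congr 1
  exact (integral_ofReal (𝕜 := ℂ)).symm

theorem M_pos {m M : ℕ} {ψ : Fin M → (Fin (m + 1) → ℝ) → ℝ} (hψ : ∀ j, ContDiff ℝ 1 (ψ j))
    (hc : ∀ j, HasCompactSupport (ψ j))
    (ho : ∀ i j, ∫ z, ψ i z * ψ j z = if i = j then (1 : ℝ) else 0) :
    (cm (MR ψ)).PosDef := by
  apply Matrix.PosDef.of_dotProduct_mulVec_pos (cm_herm (MR_herm ψ))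
  intro x hx
  rw [mbil hψ hc x x]
  set F : (Fin (m + 1) → ℝ) → ℂ := fun z => ∑ j, x j * (ψ j z : ℂ) with hF
  have hFc : Continuous F := continuous_finsetSum _ fun j _ =>
    continuous_const.mul (Complex.continuous_ofReal.comp (hψ j).continuous)
  have hFs : HasCompactSupport F := by
    refine HasCompactSupport.intro (isCompact_iUnion fun j => hc j) fun z hz => ?_
    have h3 : ∀ j, ψ j z = 0 := fun j =>
      image_eq_zero_of_notMem_tsupport fun h => hz (Set.mem_iUnion.2 ⟨j, h⟩)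
    show ∑ j, x j * (ψ j z : ℂ) = 0
    simp [h3]
  have e1 : ∀ z : Fin (m + 1) → ℝ, (Real.exp (2 * z 0) : ℂ) * (star (F z) * F z) =
      ((Real.exp (2 * z 0) * ‖F z‖ ^ 2 : ℝ) : ℂ) := by
    intro z
    have h : star (F z) * F z = ((‖F z‖ : ℝ) : ℂ) ^ 2 := Complex.conj_mul' _
    rw [h]
    push_cast
    rfl
  have e2 : ∫ z : Fin (m + 1) → ℝ, (Real.exp (2 * z 0) : ℂ) * (star (F z) * F z) =
      ((∫ z : Fin (m + 1) → ℝ, Real.exp (2 * z 0) * ‖F z‖ ^ 2 : ℝ) : ℂ) := by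
    simp_rw [e1]
    exact integral_ofReal (𝕜 := ℂ)
  show 0 < ∫ z : Fin (m + 1) → ℝ, (Real.exp (2 * z 0) : ℂ) * (star (F z) * F z)
  rw [e2, Complex.zero_lt_real]
  have hcont : Continuous fun z : Fin (m + 1) → ℝ => Real.exp (2 * z 0) * ‖F z‖ ^ 2 :=
    Continuous.mul (by fun_prop) (hFc.norm.pow 2)
  have hint : Integrable fun z : Fin (m + 1) → ℝ => Real.exp (2 * z 0) * ‖F z‖ ^ 2 := by
    refine hcont.integrable_of_hasCompactSupport ?_
    refine HasCompactSupport.intro hFs fun z hz => ?_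
    have h3 : F z = 0 := image_eq_zero_of_notMem_tsupport hz
    simp [h3]
  have hnn : ∀ z : Fin (m + 1) → ℝ, 0 ≤ Real.exp (2 * z 0) * ‖F z‖ ^ 2 := fun z => by positivity
  rcases (integral_nonneg (μ := volume)
    (f := fun z : Fin (m + 1) → ℝ => Real.exp (2 * z 0) * ‖F z‖ ^ 2) hnn).lt_or_eq with h | h
  · exact h
  · exfalso
    have h4 := (integral_eq_zero_iff_of_nonneg hnn hint).1 h.symm
    have h5 := (Continuous.ae_eq_iff_eq volume hcont continuous_const).1 h4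
    have h6 : ∀ z, F z = 0 := by
      intro z
      have h7 : Real.exp (2 * z 0) * ‖F z‖ ^ 2 = 0 := congrFun h5 z
      rcases mul_eq_zero.1 h7 with h8 | h8
      · exact absurd h8 (Real.exp_pos _).ne'
      · exact norm_eq_zero.1 (pow_eq_zero_iff two_ne_zero |>.1 h8)
    apply hx
    funext i
    have hψi : ∀ i j, Integrable fun z => ((ψ i z * ψ j z : ℝ) : ℂ) := fun i j =>
      (((hψ i).continuous.mul (hψ j).continuous).integrable_of_hasCompactSupport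
        (hc i).mul_right).ofReal
    have h7 : ∫ z, ∑ j, x j * ((ψ i z * ψ j z : ℝ) : ℂ) = 0 := by
      rw [← integral_zero (Fin (m + 1) → ℝ) ℂ]
      refine integral_congr_ae (Eventually.of_forall fun z => ?_)
      have h8 : ∑ j, x j * ((ψ i z * ψ j z : ℝ) : ℂ) = (ψ i z : ℂ) * F z := by
        rw [hF, Finset.mul_sum]
        refine Finset.sum_congr rfl fun j _ => ?_
        push_cast
        ring
      show ∑ j, x j * ((ψ i z * ψ j z : ℝ) : ℂ) = 0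
      rw [h8, h6, mul_zero]
    rw [integral_finsetSum _ fun j _ => (hψi i j).const_mul _] at h7
    have h9 : ∀ j, ∫ z, x j * ((ψ i z * ψ j z : ℝ) : ℂ) = if i = j then x j else 0 := by
      intro j
      rw [integral_const_mul]
      have : ∫ z, ((ψ i z * ψ j z : ℝ) : ℂ) = (((if i = j then (1 : ℝ) else 0) : ℝ) : ℂ) := by
        rw [← ho i j]
        exact integral_ofReal (𝕜 := ℂ)
      rw [this]
      by_cases hij : i = j
      · rw [if_pos hij, if_pos hij]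
        simp
      · rw [if_neg hij, if_neg hij]
        simp
    rw [Finset.sum_congr rfl fun j _ => h9 j, Finset.sum_ite_eq] at h7
    simpa using h7

/-! ### the basis -/

/-- a family of test functions indexed by `l ∈ Λ` and `n < N l` -/
structure Fam {m : ℕ} (Λ : Finset ℕ) (N : ℕ → ℕ)
    (φ : ∀ l, Fin (N l) → (Fin (m + 1) → ℝ) → ℂ) : Prop where
  smooth : ∀ l ∈ Λ, ∀ n, ContDiff ℝ 1 (φ l n)
  supp : ∀ l ∈ Λ, ∀ n, HasCompactSupport (φ l n)
  orth : ∀ l ∈ Λ, ∀ a b, ∫ z : Fin (m + 1) → ℝ, (Real.exp (2 * z 0) : ℂ) *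
    (star (φ l a z) * φ l b z) = if a = b then (1 : ℂ) else 0

theorem basis {m : ℕ} {Λ : Finset ℕ} {N : ℕ → ℕ} {φ : ∀ l, Fin (N l) → (Fin (m + 1) → ℝ) → ℂ}
    (h : Fam Λ N φ) : ∃ (M : ℕ) (ψ : Fin M → (Fin (m + 1) → ℝ) → ℝ)
      (v : ∀ l, Fin (N l) → Fin M → ℂ), (∀ j, ContDiff ℝ 1 (ψ j)) ∧
      (∀ j, HasCompactSupport (ψ j)) ∧
      (∀ i j, ∫ z, ψ i z * ψ j z = if i = j then (1 : ℝ) else 0) ∧
      ∀ l ∈ Λ, ∀ n, φ l n = fun z => ∑ j, v l n j * (ψ j z : ℂ) := by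
  classical
  let f : (Σ l : {x // x ∈ Λ}, Fin (N l.1)) × Bool → (Fin (m + 1) → ℝ) → ℝ := fun p z =>
    if p.2 then (φ p.1.1.1 p.1.2 z).re else (φ p.1.1.1 p.1.2 z).im
  have hf : ∀ p, ContDiff ℝ 1 (f p) := by
    rintro ⟨⟨⟨l, hl⟩, n⟩, b⟩
    cases b
    · exact Complex.imCLM.contDiff.comp (h.smooth l hl n)
    · exact Complex.reCLM.contDiff.comp (h.smooth l hl n)
  have hfc : ∀ p, HasCompactSupport (f p) := by
    rintro ⟨⟨⟨l, hl⟩, n⟩, b⟩
    cases b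
    · exact (h.supp l hl n).comp_left (g := Complex.im) Complex.zero_im
    · exact (h.supp l hl n).comp_left (g := Complex.re) Complex.zero_re
  obtain ⟨M, ψ, c, h1, h2, h3, h4⟩ := onb f hf hfc
  refine ⟨M, ψ, fun l n j => if hl : l ∈ Λ then
    (c (⟨⟨l, hl⟩, n⟩, true) j : ℂ) + (c (⟨⟨l, hl⟩, n⟩, false) j : ℂ) * Complex.I else 0,
    h1, h2, h3, fun l hl n => ?_⟩
  funext z
  have e1 : (φ l n z).re = ∑ j, c (⟨⟨l, hl⟩, n⟩, true) j * ψ j z := h4 (⟨⟨l, hl⟩, n⟩, true) z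
  have e2 : (φ l n z).im = ∑ j, c (⟨⟨l, hl⟩, n⟩, false) j * ψ j z := h4 (⟨⟨l, hl⟩, n⟩, false) z
  rw [← Complex.re_add_im (φ l n z), e1, e2]
  push_cast
  rw [Finset.sum_mul, ← Finset.sum_add_distrib]
  refine Finset.sum_congr rfl fun j _ => ?_
  rw [dif_pos hl]
  ring

/-! ### the dual inequality -/

theorem quad_V {m M : ℕ} {ψ : Fin M → (Fin (m + 1) → ℝ) → ℝ} (hψ : ∀ j, ContDiff ℝ 1 (ψ j))
    (hc : ∀ j, HasCompactSupport (ψ j)) {V : (Fin (m + 1) → ℝ) → ℝ} (hV : Continuous V)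
    (v : Fin M → ℂ) :
    (star v ⬝ᵥ (cm (AR ψ V) *ᵥ v)).re = ∫ z : Fin (m + 1) → ℝ,
      (KE (fun z => ∑ j, v j * (ψ j z : ℂ)) z -
      Real.exp (2 * z 0) * (V z * ‖∑ j, v j * (ψ j z : ℂ)‖ ^ 2)) := by
  have hi : ∀ i j, Integrable (FF V (ψ i) (ψ j)) := fun i j =>
    (FF_cs hV (hψ i) (hc i) (hψ j) (hc j)).1.integrable_of_hasCompactSupport
      (FF_cs hV (hψ i) (hc i) (hψ j) (hc j)).2
  rw [cm_re]
  simp_rw [KE_sum V ψ hψ v]
  rw [integral_finsetSum _ fun i _ => integrable_finsetSum _ fun j _ => (hi i j).const_mul _]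
  refine Finset.sum_congr rfl fun i _ => ?_
  rw [integral_finsetSum _ fun j _ => (hi i j).const_mul _]
  exact Finset.sum_congr rfl fun j _ => (integral_const_mul _ _).symm

theorem quad_1 {m M : ℕ} {ψ : Fin M → (Fin (m + 1) → ℝ) → ℝ} (hψ : ∀ j, ContDiff ℝ 1 (ψ j))
    (hc : ∀ j, HasCompactSupport (ψ j))
    (ho : ∀ i j, ∫ z, ψ i z * ψ j z = if i = j then (1 : ℝ) else 0) (v : Fin M → ℂ) :
    (star v ⬝ᵥ v).re = ∫ z : Fin (m + 1) → ℝ, ‖∑ j, v j * (ψ j z : ℂ)‖ ^ 2 := by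
  have hi : ∀ i j, Integrable fun z => ψ i z * ψ j z := fun i j =>
    ((hψ i).continuous.mul (hψ j).continuous).integrable_of_hasCompactSupport (hc i).mul_right
  simp_rw [nsq]
  rw [integral_finsetSum _ fun i _ => integrable_finsetSum _ fun j _ => (hi i j).const_mul _]
  unfold dotProduct
  rw [Complex.re_sum]
  refine Finset.sum_congr rfl fun i _ => ?_
  rw [integral_finsetSum _ fun j _ => (hi i j).const_mul _]
  rw [Finset.sum_eq_single i]
  · rw [integral_const_mul, ho i i, if_pos rfl, mul_one]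
    rfl
  · intro j _ hj
    rw [integral_const_mul, ho i j, if_neg (Ne.symm hj), mul_zero]
  · intro hi
    exact absurd (Finset.mem_univ i) hi

theorem KE_cs {m : ℕ} {f : (Fin (m + 1) → ℝ) → ℂ} (hf : ContDiff ℝ 1 f)
    (hc : HasCompactSupport f) : Continuous (KE f) ∧ HasCompactSupport (KE f) := by
  have h0 : Continuous (fderiv ℝ f) := hf.continuous_fderiv (by norm_num)
  have h1 : ∀ k, Continuous (cd k f) := fun k => h0.clm_apply continuous_const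
  have h2 : HasCompactSupport (fderiv ℝ f) := hc.fderiv (𝕜 := ℝ)
  refine ⟨?_, ?_⟩
  · unfold KE
    exact ((h1 0).norm.pow 2).add (Continuous.mul (by fun_prop)
      (continuous_finsetSum _ fun k _ => (h1 k.succ).norm.pow 2))
  · refine HasCompactSupport.intro h2 fun z hz => ?_
    have h3 : fderiv ℝ f z = 0 := image_eq_zero_of_notMem_tsupport hz
    unfold KE cd
    simp [h3]

end Pool.Agent.U281.CY
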