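import Pool.Agent.U281.CY.Du

/-!
# The dual inequality
-/

set_option autoImplicit false

open MeasureTheory Set Filter Topology
open scoped Matrix ComplexOrder

namespace Pool.Agent.U281.CY

open LTd Pool.Agent.N537.RS

theorem tau_int {m : ℕ} {V : (Fin (m + 1) → ℝ) → ℝ} (hV : Continuous V) (hV0 : ∀ z, 0 ≤ V z)
    (k : ℕ) {s : ℝ} (hs : 0 < s) :
    ∫⁻ τ in Ioi (0 : ℝ), ∫⁻ z : Fin (m + 1) → ℝ,
        ENNReal.ofReal (Real.exp (k * z 0) * (max (V z - τ) 0) ^ s) =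
      ENNReal.ofReal (1 / (s + 1)) * ∫⁻ z : Fin (m + 1) → ℝ,
        ENNReal.ofReal (Real.exp (k * z 0) * V z ^ (s + 1)) := by
  have hm : Measurable (Function.uncurry (fun (τ : ℝ) (z : Fin (m + 1) → ℝ) =>
      ENNReal.ofReal (Real.exp (k * z 0) * (max (V z - τ) 0) ^ s))) := by
    apply ENNReal.measurable_ofReal.comp
    apply Measurable.mul
    · exact Real.measurable_exp.comp (((measurable_pi_apply 0).comp measurable_snd).const_mul _)
    · apply Measurable.pow_const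
      exact ((hV.measurable.comp measurable_snd).sub measurable_fst).max measurable_const
  rw [lintegral_lintegral_swap hm.aemeasurable, ← lintegral_const_mul' _ _ ENNReal.ofReal_ne_top]
  refine lintegral_congr fun z => ?_
  have h1 : ∀ τ : ℝ, ENNReal.ofReal (Real.exp (k * z 0) * (max (V z - τ) 0) ^ s) =
      ENNReal.ofReal (Real.exp (k * z 0)) * ENNReal.ofReal ((max (V z - τ) 0) ^ s) := fun τ =>
    ENNReal.ofReal_mul (Real.exp_pos _).le
  simp_rw [h1]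
  rw [lintegral_const_mul' _ _ ENNReal.ofReal_ne_top, TA.aux _ _ (hV0 z) hs,
    ← ENNReal.ofReal_mul (Real.exp_pos _).le, ← ENNReal.ofReal_mul (by positivity)]
  congr 1
  ring

theorem Lc_nonneg {h g : ℝ} (hh : 0 ≤ h) (hg : 0 < g) : 0 < Lc h g := by
  have h1 : 0 < Real.Gamma (g + 1) := Real.Gamma_pos_of_pos (by linarith)
  have h2 : 0 < Real.Gamma (g + 1 + h) := Real.Gamma_pos_of_pos (by linarith)
  unfold Lc
  positivity

theorem dual {k m : ℕ} (hk : 6 ≤ k) {Λ : Finset ℕ} {g N : ℕ → ℕ}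
    (hg : ∀ l ∈ Λ, g l ≤ hdim k l) {φ : ∀ l, Fin (N l) → (Fin (m + 1) → ℝ) → ℂ}
    (h : Fam Λ N φ) {V : (Fin (m + 1) → ℝ) → ℝ} (hV : Continuous V)
    (hVc : HasCompactSupport V) (hV0 : ∀ z, 0 ≤ V z) :
    ∑ l ∈ Λ, (g l : ℝ) * ∑ n, ((∫ z : Fin (m + 1) → ℝ,
      Real.exp (2 * z 0) * (V z * ‖φ l n z‖ ^ 2)) - (∫ z, KE (φ l n) z) -
      ((l : ℝ) + ((k : ℝ) - 2) / 2) ^ 2 * ∫ z, ‖φ l n z‖ ^ 2) ≤
    2 / ((k - 1).factorial : ℝ) * Lc (((m + 1 : ℕ) : ℝ) / 2) (((k : ℝ) - 1) / 2) *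
      (2 / (((k + m : ℕ) : ℝ) + 2)) *
      ∫ z : Fin (m + 1) → ℝ, Real.exp (k * z 0) * V z ^ (1 + ((k + m : ℕ) : ℝ) / 2) := by
  have hk' : (6 : ℝ) ≤ k := by exact_mod_cast hk
  have hm0 : (0 : ℝ) ≤ (m : ℝ) := Nat.cast_nonneg m
  have hdc : ((k + m : ℕ) : ℝ) = (k : ℝ) + m := by push_cast; ring
  have hdc1 : ((m + 1 : ℕ) : ℝ) = (m : ℝ) + 1 := by push_cast; ring
  obtain ⟨M, ψ, v, hψ, hc, ho, hv⟩ := basis h
  have hherm : ∀ τ : ℝ, (AR ψ V + τ • MR ψ).IsHermitian := by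
    intro τ
    apply Matrix.IsHermitian.ext
    intro i j
    have h1 := (AR_herm ψ V).apply i j
    have h2 := (MR_herm ψ).apply i j
    rw [star_trivial] at h1 h2 ⊢
    show AR ψ V j i + τ * MR ψ j i = AR ψ V i j + τ * MR ψ i j
    rw [h1, h2]
  have hH : ∀ τ : ℝ, (cm (AR ψ V) + (τ : ℂ) • cm (MR ψ)).IsHermitian := by
    intro τ
    rw [cm_shift]
    exact cm_herm (hherm τ)
  have horth : ∀ l ∈ Λ, ∀ a b, star (v l a) ⬝ᵥ (cm (MR ψ) *ᵥ v l b) =
      if a = b then (1 : ℂ) else 0 := by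
    intro l hl a b
    rw [mbil hψ hc, ← h.orth l hl a b, hv l hl a, hv l hl b]
  have hS : S_LA := LA.t_LA (IT.t_INT IN.t_INERT) (ME.t_MEAS IN.t_INERT) CE.t_CELL
  have hLA := hS k hk M (cm (AR ψ V)) (cm (MR ψ)) (cm_herm (AR_herm ψ V)) (M_pos hψ hc ho) Λ g N
    hg v horth hH
  have hVi : ∀ l ∈ Λ, ∀ n, Integrable fun z : Fin (m + 1) → ℝ =>
      Real.exp (2 * z 0) * (V z * ‖φ l n z‖ ^ 2) := by
    intro l hl n
    refine Continuous.integrable_of_hasCompactSupport ?_ ?_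
    · exact Continuous.mul (by fun_prop) (hV.mul ((h.smooth l hl n).continuous.norm.pow 2))
    · refine HasCompactSupport.intro hVc fun z hz => ?_
      have h3 : V z = 0 := image_eq_zero_of_notMem_tsupport hz
      simp [h3]
  have hKi : ∀ l ∈ Λ, ∀ n, Integrable (KE (φ l n)) := fun l hl n =>
    (KE_cs (h.smooth l hl n) (h.supp l hl n)).1.integrable_of_hasCompactSupport
      (KE_cs (h.smooth l hl n) (h.supp l hl n)).2
  have hL : (∑ l ∈ Λ, (g l : ℝ) * ∑ n, ((∫ z : Fin (m + 1) → ℝ,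
      Real.exp (2 * z 0) * (V z * ‖φ l n z‖ ^ 2)) - (∫ z, KE (φ l n) z) -
      ((l : ℝ) + ((k : ℝ) - 2) / 2) ^ 2 * ∫ z, ‖φ l n z‖ ^ 2)) =
      ∑ l ∈ Λ, (g l : ℝ) * (-(∑ a, (star (v l a) ⬝ᵥ (cm (AR ψ V) *ᵥ v l a)).re) -
        ((l : ℝ) + ((k : ℝ) - 2) / 2) ^ 2 * ∑ a, (star (v l a) ⬝ᵥ v l a).re) := by
    refine Finset.sum_congr rfl fun l hl => ?_
    congr 1
    rw [← Finset.sum_neg_distrib, Finset.mul_sum, ← Finset.sum_sub_distrib]
    refine Finset.sum_congr rfl fun n _ => ?_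
    have e1 : (star (v l n) ⬝ᵥ (cm (AR ψ V) *ᵥ v l n)).re =
        (∫ z, KE (φ l n) z) - ∫ z : Fin (m + 1) → ℝ,
          Real.exp (2 * z 0) * (V z * ‖φ l n z‖ ^ 2) := by
      rw [quad_V hψ hc hV, ← integral_sub (hKi l hl n) (hVi l hl n), hv l hl n]
    have e2 : (star (v l n) ⬝ᵥ v l n).re = ∫ z, ‖φ l n z‖ ^ 2 := by
      rw [quad_1 hψ hc ho, hv l hl n]
    rw [e1, e2]
    ring
  have hG : ((k : ℝ) - 1) / 2 + ((m + 1 : ℕ) : ℝ) / 2 = ((k + m : ℕ) : ℝ) / 2 := by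
    rw [hdc, hdc1]
    ring
  have hLc : 0 < Lc (((m + 1 : ℕ) : ℝ) / 2) (((k : ℝ) - 1) / 2) :=
    Lc_nonneg (by positivity) (by linarith)
  have hd2 : 0 < ((k + m : ℕ) : ℝ) / 2 := by rw [hdc]; linarith
  have hbound : ∀ τ ∈ Ioi (0 : ℝ),
      ∑ i, ENNReal.ofReal ((max (-(hH τ).eigenvalues i) 0) ^ (((k : ℝ) - 1) / 2)) ≤
      ENNReal.ofReal (Lc (((m + 1 : ℕ) : ℝ) / 2) (((k : ℝ) - 1) / 2)) *
        ∫⁻ z : Fin (m + 1) → ℝ, ENNReal.ofReal
          (Real.exp (k * z 0) * (max (V z - τ) 0) ^ (((k + m : ℕ) : ℝ) / 2)) := by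
    intro τ hτ
    have hτ' : 0 < τ := hτ
    rw [eig_sum (AR ψ V + τ • MR ψ) (hherm τ) _ (hH τ) (cm_shift ψ V τ)
      (fun x => ENNReal.ofReal ((max (-x) 0) ^ (((k : ℝ) - 1) / 2)))]
    have hWc : HasCompactSupport fun z => max (V z - τ) 0 := by
      refine HasCompactSupport.intro hVc fun z hz => ?_
      have h3 : V z = 0 := image_eq_zero_of_notMem_tsupport hz
      show max (V z - τ) 0 = 0
      rw [h3]
      exact max_eq_right (by linarith)
    have h2 := eb ψ hψ hc ho (W := fun z => V z - τ) (hV.sub continuous_const) hWc (hherm τ)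
      (AR_shift hψ hc hV τ) (g := ((k : ℝ) - 1) / 2) (by linarith)
    have h3 : ∀ z : Fin (m + 1) → ℝ, Real.exp (-(m * z 0)) *
        (Real.exp (2 * z 0) * max (V z - τ) 0) ^ (((k : ℝ) - 1) / 2 + ((m + 1 : ℕ) : ℝ) / 2) =
        Real.exp (k * z 0) * (max (V z - τ) 0) ^ (((k + m : ℕ) : ℝ) / 2) := by
      intro z
      rw [hG, Real.mul_rpow (Real.exp_pos _).le (le_max_right _ _), ← Real.exp_mul, ← mul_assoc,
        ← Real.exp_add]
      congr 2
      rw [hdc]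
      ring
    simp only [h3] at h2
    rw [← ENNReal.ofReal_sum_of_nonneg fun i _ => Real.rpow_nonneg (le_max_right _ _) _]
    refine (ENNReal.ofReal_le_ofReal h2).trans (le_of_eq ?_)
    rw [ENNReal.ofReal_mul hLc.le]
    congr 1
    refine ofReal_integral_eq_lintegral_ofReal ?_ (Eventually.of_forall fun z => ?_)
    · refine Continuous.integrable_of_hasCompactSupport ?_ ?_
      · exact Continuous.mul (by fun_prop) (Continuous.rpow_const
          ((hV.sub continuous_const).max continuous_const) fun _ => Or.inr hd2.le)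
      · refine HasCompactSupport.intro hWc fun z hz => ?_
        have h4 : max (V z - τ) 0 = 0 :=
          image_eq_zero_of_notMem_tsupport (f := fun z => max (V z - τ) 0) hz
        rw [h4, Real.zero_rpow hd2.ne', mul_zero]
    · exact mul_nonneg (Real.exp_pos _).le (Real.rpow_nonneg (le_max_right _ _) _)
  have hfac : (0 : ℝ) < ((k - 1).factorial : ℝ) := by exact_mod_cast Nat.factorial_pos _
  have hexp : ((k + m : ℕ) : ℝ) / 2 + 1 = 1 + ((k + m : ℕ) : ℝ) / 2 := by ring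
  have hint : Integrable fun z : Fin (m + 1) → ℝ =>
      Real.exp (k * z 0) * V z ^ (1 + ((k + m : ℕ) : ℝ) / 2) := by
    refine Continuous.integrable_of_hasCompactSupport ?_ ?_
    · exact Continuous.mul (by fun_prop) (hV.rpow_const fun _ => Or.inr (by linarith))
    · refine HasCompactSupport.intro hVc fun z hz => ?_
      have h4 : V z = 0 := image_eq_zero_of_notMem_tsupport hz
      rw [h4, Real.zero_rpow (by linarith), mul_zero]
  have hfin : ENNReal.ofReal (∑ l ∈ Λ, (g l : ℝ) * ∑ n, ((∫ z : Fin (m + 1) → ℝ,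
      Real.exp (2 * z 0) * (V z * ‖φ l n z‖ ^ 2)) - (∫ z, KE (φ l n) z) -
      ((l : ℝ) + ((k : ℝ) - 2) / 2) ^ 2 * ∫ z, ‖φ l n z‖ ^ 2)) ≤
      ENNReal.ofReal (2 / ((k - 1).factorial : ℝ) *
        Lc (((m + 1 : ℕ) : ℝ) / 2) (((k : ℝ) - 1) / 2) * (2 / (((k + m : ℕ) : ℝ) + 2)) *
      ∫ z : Fin (m + 1) → ℝ, Real.exp (k * z 0) * V z ^ (1 + ((k + m : ℕ) : ℝ) / 2)) := by
    rw [hL]
    calc _ ≤ ENNReal.ofReal (2 / ((k - 1).factorial : ℝ)) * ∫⁻ τ in Ioi (0 : ℝ),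
        ∑ i, ENNReal.ofReal ((max (-(hH τ).eigenvalues i) 0) ^ (((k : ℝ) - 1) / 2)) := hLA
      _ ≤ ENNReal.ofReal (2 / ((k - 1).factorial : ℝ)) * ∫⁻ τ in Ioi (0 : ℝ),
        (ENNReal.ofReal (Lc (((m + 1 : ℕ) : ℝ) / 2) (((k : ℝ) - 1) / 2)) *
        ∫⁻ z : Fin (m + 1) → ℝ, ENNReal.ofReal
          (Real.exp (k * z 0) * (max (V z - τ) 0) ^ (((k + m : ℕ) : ℝ) / 2))) :=
          mul_le_mul' le_rfl (setLIntegral_mono' measurableSet_Ioi hbound)
      _ = _ := by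
          rw [lintegral_const_mul' _ _ ENNReal.ofReal_ne_top, tau_int hV hV0 k hd2, hexp,
            ← ofReal_integral_eq_lintegral_ofReal hint (Eventually.of_forall fun z =>
              mul_nonneg (Real.exp_pos _).le (Real.rpow_nonneg (hV0 z) _)),
            ← ENNReal.ofReal_mul (by positivity), ← ENNReal.ofReal_mul hLc.le,
            ← ENNReal.ofReal_mul (by positivity)]
          congr 1
          have : (1 : ℝ) / (1 + ((k + m : ℕ) : ℝ) / 2) = 2 / (((k + m : ℕ) : ℝ) + 2) := by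
            field_simp
            ring
          rw [this]
          ring
  refine (ENNReal.ofReal_le_ofReal_iff ?_).1 hfin
  refine mul_nonneg (by positivity) (integral_nonneg fun z => ?_)
  exact mul_nonneg (Real.exp_pos _).le (Real.rpow_nonneg (hV0 z) _)

end Pool.Agent.U281.CY
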