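import Mathlib
import Pool.Agent.Helper717.LT.Defs
import Pool.Agent.Helper717.LT.P_bco_succ

/-!
# Linear algebra and elementary inequalities
-/

set_option autoImplicit false

open MeasureTheory Set Filter Topology
open scoped Matrix

namespace Pool.Agent.U281.CY

/-! ### eigenvalues of a real symmetric matrix -/

theorem eig_sum {M : ℕ} (B : Matrix (Fin M) (Fin M) ℝ) (hB : B.IsHermitian)
    (B' : Matrix (Fin M) (Fin M) ℂ) (hB' : B'.IsHermitian) (h : B' = B.map (fun x : ℝ => (x : ℂ)))
    {β : Type} [AddCommMonoid β] (f : ℝ → β) :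
    ∑ i, f (hB'.eigenvalues i) = ∑ i, f (hB.eigenvalues i) := by
  have h1 := hB.roots_charpoly_eq_eigenvalues
  have h2 := hB'.roots_charpoly_eq_eigenvalues
  have h3 : B'.charpoly = B.charpoly.map (algebraMap ℝ ℂ) := by
    rw [h]
    exact (Matrix.charpoly_map B (algebraMap ℝ ℂ))
  have h4 : B.charpoly.Splits := by
    rw [hB.charpoly_eq]
    refine Polynomial.Splits.prod fun i _ => ?_
    exact Polynomial.Splits.X_sub_C _
  have h5 : B'.charpoly.roots = B.charpoly.roots.map (algebraMap ℝ ℂ) := by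
    rw [h3]
    exact h4.roots_map _
  rw [h1, h2] at h5
  have h6 : Multiset.map (fun i => hB'.eigenvalues i) Finset.univ.val =
      Multiset.map (fun i => hB.eigenvalues i) Finset.univ.val := by
    have h7 := congrArg (Multiset.map Complex.re) h5
    simpa [Multiset.map_map, Function.comp_def] using h7
  have h8 := congrArg (fun s : Multiset ℝ => (s.map f).sum) h6
  simpa only [Multiset.map_map, Function.comp_def, Finset.sum_map_val] using h8

/-! ### orthonormal bases of finite dimensional spaces of test functions -/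

theorem onb {m : ℕ} {ι : Type} [Fintype ι] (f : ι → (Fin m → ℝ) → ℝ)
    (hf : ∀ i, ContDiff ℝ 1 (f i)) (hc : ∀ i, HasCompactSupport (f i)) :
    ∃ (M : ℕ) (ψ : Fin M → (Fin m → ℝ) → ℝ) (c : ι → Fin M → ℝ), (∀ j, ContDiff ℝ 1 (ψ j)) ∧
      (∀ j, HasCompactSupport (ψ j)) ∧
      (∀ i j, ∫ z, ψ i z * ψ j z = if i = j then (1 : ℝ) else 0) ∧
      ∀ i z, f i z = ∑ j, c i j * ψ j z := by
  classical
  let F : Submodule ℝ ((Fin m → ℝ) → ℝ) := Submodule.span ℝ (Set.range f)
  have hF : ∀ u ∈ F, ContDiff ℝ 1 u ∧ HasCompactSupport u := by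
    intro u hu
    refine Submodule.span_induction (p := fun u _ => ContDiff ℝ 1 u ∧ HasCompactSupport u)
      ?_ ?_ ?_ ?_ hu
    · rintro _ ⟨i, rfl⟩
      exact ⟨hf i, hc i⟩
    · exact ⟨contDiff_const, HasCompactSupport.zero⟩
    · intro x y _ _ hx hy
      exact ⟨hx.1.add hy.1, hx.2.add hy.2⟩
    · intro a x _ hx
      refine ⟨contDiff_const.mul hx.1, ?_⟩
      exact hx.2.mul_left (f := fun _ => a)
  have hcont : ∀ u ∈ F, Continuous u := fun u hu => (hF u hu).1.continuous
  have hint : ∀ u ∈ F, ∀ v ∈ F, Integrable (fun z => u z * v z) := fun u hu v hv =>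
    ((hcont u hu).mul (hcont v hv)).integrable_of_hasCompactSupport ((hF u hu).2.mul_right)
  let core : InnerProductSpace.Core ℝ F :=
    { inner := fun u v => ∫ z, (u : (Fin m → ℝ) → ℝ) z * (v : (Fin m → ℝ) → ℝ) z
      conj_inner_symm := by
        intro u v
        simp only [conj_trivial]
        exact integral_congr_ae (Eventually.of_forall fun z => mul_comm _ _)
      re_inner_nonneg := by
        intro u
        exact integral_nonneg fun z => mul_self_nonneg _
      add_left := by
        intro u v w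
        rw [← integral_add (hint _ u.2 _ w.2) (hint _ v.2 _ w.2)]
        refine integral_congr_ae (Eventually.of_forall fun z => ?_)
        show ((u : (Fin m → ℝ) → ℝ) z + (v : (Fin m → ℝ) → ℝ) z) * _ = _
        ring
      smul_left := by
        intro u v r
        simp only [conj_trivial]
        rw [← integral_const_mul]
        refine integral_congr_ae (Eventually.of_forall fun z => ?_)
        show (r * (u : (Fin m → ℝ) → ℝ) z) * _ = _
        ring
      definite := by
        intro u hu
        have h1 : (fun z => (u : (Fin m → ℝ) → ℝ) z * (u : (Fin m → ℝ) → ℝ) z) =ᵐ[volume] 0 :=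
          (integral_eq_zero_iff_of_nonneg (fun z => mul_self_nonneg _) (hint _ u.2 _ u.2)).1 hu
        have h2 : (u : (Fin m → ℝ) → ℝ) =ᵐ[volume] fun _ => 0 := by
          filter_upwards [h1] with z hz
          exact mul_self_eq_zero.1 hz
        have h3 := (Continuous.ae_eq_iff_eq volume (hcont _ u.2) continuous_const).1 h2
        exact Subtype.ext h3 }
  let _ : NormedAddCommGroup F := core.toNormedAddCommGroup
  let _ : InnerProductSpace ℝ F := InnerProductSpace.ofCore core.toCore
  have : FiniteDimensional ℝ F := FiniteDimensional.span_of_finite ℝ (Set.finite_range f)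
  let b := stdOrthonormalBasis ℝ F
  refine ⟨Module.finrank ℝ F, fun j => (b j : (Fin m → ℝ) → ℝ),
    fun i j => inner ℝ (b j) (⟨f i, Submodule.subset_span (Set.mem_range_self i)⟩ : F),
    fun j => (hF _ (b j).2).1, fun j => (hF _ (b j).2).2, fun i j => ?_, fun i z => ?_⟩
  · have h1 := b.orthonormal
    rw [orthonormal_iff_ite] at h1
    exact h1 i j
  · have h1 := b.sum_repr' (⟨f i, Submodule.subset_span (Set.mem_range_self i)⟩ : F)
    have h2 := congrArg (fun u : F => (u : (Fin m → ℝ) → ℝ) z) h1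
    simp only [Submodule.coe_sum, Submodule.coe_smul, Finset.sum_apply, Pi.smul_apply,
      smul_eq_mul] at h2
    exact h2.symm

/-! ### Young's inequality and the optimal weights -/

open LTd in
theorem young {G x ρ b : ℝ} (hG : 1 < G) (hx : 0 ≤ x) (hρ : 0 ≤ ρ) (hb : 0 < b) :
    x * ρ - b * ρ ^ pp G ≤ cc G * b ^ (-(G - 1)) * x ^ G := by
  have hG0 : 0 < G := by linarith
  have hG1 : 0 < G - 1 := by linarith
  have hp : 0 < pp G := div_pos hG0 hG1
  have hbp : 0 < b * pp G := mul_pos hb hp
  have hconj : (pp G).HolderConjugate G := by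
    rw [Real.holderConjugate_iff]
    refine ⟨?_, ?_⟩
    · unfold pp
      rw [one_lt_div hG1]
      linarith
    · unfold pp
      field_simp
      ring
  have h1 := Real.young_inequality_of_nonneg
    (a := (b * pp G) ^ (1 / pp G) * ρ) (b := x * ((b * pp G) ^ (1 / pp G))⁻¹)
    (by positivity) (by positivity) hconj
  have e1 : (b * pp G) ^ (1 / pp G) * ρ * (x * ((b * pp G) ^ (1 / pp G))⁻¹) = x * ρ := by
    have : (b * pp G) ^ (1 / pp G) ≠ 0 := (Real.rpow_pos_of_pos hbp _).ne'
    field_simp
  have e2 : ((b * pp G) ^ (1 / pp G) * ρ) ^ pp G / pp G = b * ρ ^ pp G := by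
    rw [Real.mul_rpow (by positivity) hρ, ← Real.rpow_mul hbp.le, one_div_mul_cancel hp.ne',
      Real.rpow_one]
    field_simp
  have e3 : (x * ((b * pp G) ^ (1 / pp G))⁻¹) ^ G / G = cc G * b ^ (-(G - 1)) * x ^ G := by
    rw [Real.mul_rpow hx (by positivity), Real.inv_rpow (by positivity), ← Real.rpow_mul hbp.le]
    have e4 : 1 / pp G * G = G - 1 := by
      unfold pp
      field_simp
    rw [e4, Real.mul_rpow hb.le hp.le, Real.rpow_neg hb.le]
    have e5 : pp G ^ (G - 1) = G ^ (G - 1) / (G - 1) ^ (G - 1) := by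
      unfold pp
      rw [Real.div_rpow hG0.le hG1.le]
    rw [e5]
    unfold cc
    have e6 : G ^ G = G ^ (G - 1) * G := by
      rw [← Real.rpow_add_one hG0.ne']
      congr 1
      ring
    rw [e6]
    have h7 : G ^ (G - 1) ≠ 0 := (Real.rpow_pos_of_pos hG0 _).ne'
    have h8 : (G - 1) ^ (G - 1) ≠ 0 := (Real.rpow_pos_of_pos hG1 _).ne'
    have h9 : b ^ (G - 1) ≠ 0 := (Real.rpow_pos_of_pos hb _).ne'
    field_simp
  rw [e1, e2, e3] at h1
  linarith

/-- the optimal occupation number -/
noncomputable def occ (g E : ℝ) : ℝ := (E / LTd.pp g) ^ (g - 1)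

open LTd in
theorem occ_nonneg {g E : ℝ} (hg : 1 < g) (hE : 0 ≤ E) : 0 ≤ occ g E := by
  have : 0 < pp g := div_pos (by linarith) (by linarith)
  unfold occ
  positivity

open LTd in
theorem occ_zero {g : ℝ} (hg : 1 < g) : occ g 0 = 0 := by
  unfold occ
  rw [zero_div, Real.zero_rpow (by linarith)]

open LTd in
theorem occ_eq {g E : ℝ} (hg : 1 < g) (hE : 0 ≤ E) :
    occ g E * E - occ g E ^ pp g = cc g * E ^ g := by
  have hg0 : 0 < g := by linarith
  have hg1 : 0 < g - 1 := by linarith
  have hp : 0 < pp g := div_pos hg0 hg1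
  have hx : 0 ≤ E / pp g := by positivity
  have e1 : occ g E ^ pp g = (E / pp g) ^ g := by
    unfold occ
    rw [← Real.rpow_mul hx]
    congr 1
    unfold pp
    field_simp
  have e2 : occ g E * E = (E / pp g) ^ g * pp g := by
    rcases hE.eq_or_lt with h0 | h0
    · rw [← h0, mul_zero, zero_div, Real.zero_rpow hg0.ne', zero_mul]
    · have h1 : 0 < E / pp g := by positivity
      have h2 : (E / pp g) ^ g = (E / pp g) ^ (g - 1) * (E / pp g) := by
        rw [← Real.rpow_add_one h1.ne']
        congr 1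
        ring
      unfold occ
      rw [h2]
      field_simp
  rw [e1, e2, Real.div_rpow hE hp.le]
  have e3 : pp g ^ g = g ^ g / (g - 1) ^ g := by
    unfold pp
    rw [Real.div_rpow hg0.le hg1.le]
  have e4 : (g - 1) ^ g = (g - 1) ^ (g - 1) * (g - 1) := by
    rw [← Real.rpow_add_one hg1.ne']
    congr 1
    ring
  have h5 : g ^ g ≠ 0 := (Real.rpow_pos_of_pos hg0 _).ne'
  have h6 : (g - 1) ^ (g - 1) ≠ 0 := (Real.rpow_pos_of_pos hg1 _).ne'
  rw [e3, e4]
  unfold cc pp
  field_simp
  ring

/-- the semiclassical constant `Γ(g+1) / ((4π)^h Γ(g+1+h))` in dimension `2 h` -/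
noncomputable def Lc (h g : ℝ) : ℝ :=
  Real.Gamma (g + 1) / ((4 * Real.pi) ^ h * Real.Gamma (g + 1 + h))

open LTd in
theorem bco_dual {h g : ℝ} (hh : 0 ≤ h) (hg : 1 < g) :
    cc (g + h) * bco h g 1 ^ (-(g + h - 1)) = cc g * Lc h g := by
  have hJ : 0 < JJ h g := bco_succ_JJ_pos hh hg
  have h1 : 0 < cc (g + h) := bco_succ_cc_pos (by linarith)
  have h2 : 0 < cc g := bco_succ_cc_pos hg
  have h3 : 0 < Real.Gamma (g + 1) := Real.Gamma_pos_of_pos (by linarith)
  have h4 : 0 < Real.Gamma (g + 1 + h) := Real.Gamma_pos_of_pos (by linarith)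
  have h5 : 0 < (4 * Real.pi) ^ h := by positivity
  have e1 : bco h g 1 ^ (-(g + h - 1)) = (JJ h g)⁻¹ := by
    unfold bco
    rw [Real.one_rpow, mul_one, ← Real.rpow_mul hJ.le]
    have : 1 / (g + h - 1) * -(g + h - 1) = -1 := by
      have : g + h - 1 ≠ 0 := by
        have : 0 < g + h - 1 := by linarith
        exact this.ne'
      field_simp
    rw [this, Real.rpow_neg_one]
  rw [e1]
  unfold JJ Lc
  field_simp

end Pool.Agent.U281.CY
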