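import Pool.Agent.U281.CY.Tw
import Pool.Agent.U281.CY.Lin
import Pool.Agent.Helper717.LT.P_pd_sum
import Pool.Agent.Helper717.LT.P_pd_basic

/-!
# The bound for the powers of the eigenvalues of `-∂_t² - e^{2t} Δ_y - e^{2t} W`
-/

set_option autoImplicit false

open MeasureTheory Set Filter Topology Real
open scoped Matrix

namespace Pool.Agent.U281.CY

open LTd

/-- the density of the quadratic form -/
noncomputable def FF {m : ℕ} (W f g : (Fin (m + 1) → ℝ) → ℝ) (z : Fin (m + 1) → ℝ) : ℝ :=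
  pd 0 f z * pd 0 g z + Real.exp (2 * z 0) * (∑ k : Fin m, pd k.succ f z * pd k.succ g z) -
    Real.exp (2 * z 0) * (W z * (f z * g z))

theorem FF_cs {m : ℕ} {W f g : (Fin (m + 1) → ℝ) → ℝ} (hW : Continuous W)
    (hf : ContDiff ℝ 1 f) (hfc : HasCompactSupport f) (hg : ContDiff ℝ 1 g)
    (hgc : HasCompactSupport g) : Continuous (FF W f g) ∧ HasCompactSupport (FF W f g) := by
  have h1 := fun k => pd_basic hf hfc k
  have h2 := fun k => pd_basic hg hgc k
  refine ⟨?_, ?_⟩
  · unfold FF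
    refine Continuous.sub (Continuous.add ((h1 0).1.mul (h2 0).1) (Continuous.mul (by fun_prop)
      (continuous_finsetSum _ fun k _ => (h1 k.succ).1.mul (h2 k.succ).1))) ?_
    exact Continuous.mul (by fun_prop) (hW.mul (hf.continuous.mul hg.continuous))
  · refine HasCompactSupport.intro (hfc.union (isCompact_iUnion fun k => (h1 k).2)) fun z hz => ?_
    have h3 : f z = 0 := image_eq_zero_of_notMem_tsupport fun h => hz (Or.inl h)
    have h4 : ∀ k, pd k f z = 0 := fun k =>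
      image_eq_zero_of_notMem_tsupport fun h => hz (Or.inr (Set.mem_iUnion.2 ⟨k, h⟩))
    unfold FF
    simp [h3, h4]

theorem FF_sum {m M : ℕ} (W : (Fin (m + 1) → ℝ) → ℝ) (ψ : Fin M → (Fin (m + 1) → ℝ) → ℝ)
    (hψ : ∀ j, ContDiff ℝ 1 (ψ j)) (a b : Fin M → ℝ) (z : Fin (m + 1) → ℝ) :
    FF W (fun z => ∑ i, a i * ψ i z) (fun z => ∑ j, b j * ψ j z) z =
      ∑ i, ∑ j, a i * b j * FF W (ψ i) (ψ j) z := by
  have hp : ∀ (x y : Fin M → ℝ), (∑ i, a i * x i) * (∑ j, b j * y j) =
      ∑ i, ∑ j, a i * b j * (x i * y j) := by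
    intro x y
    rw [Finset.sum_mul_sum]
    exact Finset.sum_congr rfl fun i _ => Finset.sum_congr rfl fun j _ => by ring
  have hq : ∑ k : Fin m, ∑ i, ∑ j, a i * b j * (pd k.succ (ψ i) z * pd k.succ (ψ j) z) =
      ∑ i, ∑ j, a i * b j * ∑ k : Fin m, pd k.succ (ψ i) z * pd k.succ (ψ j) z := by
    rw [Finset.sum_comm]
    refine Finset.sum_congr rfl fun i _ => ?_
    rw [Finset.sum_comm]
    refine Finset.sum_congr rfl fun j _ => ?_
    rw [Finset.mul_sum]
  unfold FF
  simp only [pd_sum ψ hψ, hp]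
  rw [hq]
  rw [Finset.mul_sum, Finset.mul_sum, Finset.mul_sum, ← Finset.sum_add_distrib,
    ← Finset.sum_sub_distrib]
  refine Finset.sum_congr rfl fun i _ => ?_
  rw [Finset.mul_sum, Finset.mul_sum, Finset.mul_sum, ← Finset.sum_add_distrib,
    ← Finset.sum_sub_distrib]
  refine Finset.sum_congr rfl fun j _ => ?_
  ring

theorem FF_int {m M : ℕ} {W : (Fin (m + 1) → ℝ) → ℝ} (hW : Continuous W)
    (ψ : Fin M → (Fin (m + 1) → ℝ) → ℝ)
    (hψ : ∀ j, ContDiff ℝ 1 (ψ j)) (hc : ∀ j, HasCompactSupport (ψ j)) (a b : Fin M → ℝ) :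
    ∫ z, FF W (fun z => ∑ i, a i * ψ i z) (fun z => ∑ j, b j * ψ j z) z =
      ∑ i, ∑ j, a i * b j * ∫ z, FF W (ψ i) (ψ j) z := by
  have hi : ∀ i j, Integrable (FF W (ψ i) (ψ j)) := fun i j =>
    (FF_cs hW (hψ i) (hc i) (hψ j) (hc j)).1.integrable_of_hasCompactSupport
      (FF_cs hW (hψ i) (hc i) (hψ j) (hc j)).2
  simp_rw [FF_sum W ψ hψ a b]
  rw [integral_finsetSum _ fun i _ => integrable_finsetSum _ fun j _ => (hi i j).const_mul _]
  refine Finset.sum_congr rfl fun i _ => ?_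
  rw [integral_finsetSum _ fun j _ => (hi i j).const_mul _]
  exact Finset.sum_congr rfl fun j _ => integral_const_mul _ _

theorem rorth {M : ℕ} {Q : Matrix (Fin M) (Fin M) ℝ} (hQ : Q.IsHermitian) (i j : Fin M) :
    ∑ a, (hQ.eigenvectorUnitary : Matrix (Fin M) (Fin M) ℝ) a i *
      (hQ.eigenvectorUnitary : Matrix (Fin M) (Fin M) ℝ) a j = if i = j then 1 else 0 := by
  have h := Unitary.coe_star_mul_self hQ.eigenvectorUnitary
  have h2 := congrFun (congrFun h i) j
  rw [Matrix.mul_apply, Matrix.one_apply] at h2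
  simpa only [Matrix.star_apply, star_trivial] using h2

theorem reig {M : ℕ} {Q : Matrix (Fin M) (Fin M) ℝ} (hQ : Q.IsHermitian) (n : Fin M) :
    hQ.eigenvalues n = ∑ a, ∑ b, (hQ.eigenvectorUnitary : Matrix (Fin M) (Fin M) ℝ) a n *
      (hQ.eigenvectorUnitary : Matrix (Fin M) (Fin M) ℝ) b n * Q a b := by
  rw [hQ.eigenvalues_eq]
  change (∑ a, star ((hQ.eigenvectorUnitary : Matrix (Fin M) (Fin M) ℝ) a n) *
    ∑ b, Q a b * (hQ.eigenvectorUnitary : Matrix (Fin M) (Fin M) ℝ) b n) = _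
  refine Finset.sum_congr rfl fun a _ => ?_
  rw [Finset.mul_sum, star_trivial]
  refine Finset.sum_congr rfl fun b _ => ?_
  ring

theorem kp_mul {m : ℕ} {g : ℝ} (hg : 3 / 2 ≤ g) :
    kp m g * (g + ((m + 1 : ℕ) : ℝ) / 2 - 1) = m := by
  unfold kp
  have hm0 : (0 : ℝ) ≤ (m : ℝ) := Nat.cast_nonneg m
  have hd2 : g + (m : ℝ) / 2 - 1 / 2 ≠ 0 := by
    have : 0 < g + (m : ℝ) / 2 - 1 / 2 := by linarith
    exact this.ne'
  have : g + ((m + 1 : ℕ) : ℝ) / 2 - 1 = g + (m : ℝ) / 2 - 1 / 2 := by push_cast; ring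
  rw [this]
  exact div_mul_cancel₀ _ hd2

theorem pd_smul {m : ℕ} {f : (Fin m → ℝ) → ℝ} (hf : ContDiff ℝ 1 f) (c : ℝ) (k : Fin m)
    (z : Fin m → ℝ) : pd k (fun z => c * f z) z = c * pd k f z := by
  have h := pd_sum (fun _ : Fin 1 => f) (fun _ => hf) (fun _ => c) k z
  simpa using h

theorem eb {m M : ℕ} (ψ : Fin M → (Fin (m + 1) → ℝ) → ℝ) (hψ : ∀ j, ContDiff ℝ 1 (ψ j))
    (hc : ∀ j, HasCompactSupport (ψ j))
    (ho : ∀ i j, ∫ z, ψ i z * ψ j z = if i = j then (1 : ℝ) else 0)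
    {W : (Fin (m + 1) → ℝ) → ℝ} (hW : Continuous W)
    (hWc : HasCompactSupport fun z => max (W z) 0) {Q : Matrix (Fin M) (Fin M) ℝ}
    (hQ : Q.IsHermitian) (hform : ∀ i j, Q i j = ∫ z, FF W (ψ i) (ψ j) z) {g : ℝ}
    (hg : 3 / 2 ≤ g) :
    ∑ i, (max (-hQ.eigenvalues i) 0) ^ g ≤ Lc (((m + 1 : ℕ) : ℝ) / 2) g *
      ∫ z : Fin (m + 1) → ℝ, Real.exp (-(m * z 0)) *
        (Real.exp (2 * z 0) * max (W z) 0) ^ (g + ((m + 1 : ℕ) : ℝ) / 2) := by
  have hm0 : (0 : ℝ) ≤ (m : ℝ) := Nat.cast_nonneg m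
  have hm1 : (0 : ℝ) ≤ ((m + 1 : ℕ) : ℝ) := Nat.cast_nonneg _
  have hm1' : ((m + 1 : ℕ) : ℝ) = (m : ℝ) + 1 := by push_cast; ring
  set G : ℝ := g + ((m + 1 : ℕ) : ℝ) / 2 with hG
  have hG1 : 1 < G := by rw [hG]; linarith
  have hg1 : 1 < g := by linarith
  set U : Matrix (Fin M) (Fin M) ℝ := (hQ.eigenvectorUnitary : Matrix (Fin M) (Fin M) ℝ) with hU
  have hψi : ∀ i j, Integrable fun z => ψ i z * ψ j z := fun i j =>
    ((hψ i).continuous.mul (hψ j).continuous).integrable_of_hasCompactSupport (hc i).mul_right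
  let χ : Fin M → (Fin (m + 1) → ℝ) → ℝ := fun n z => ∑ a, U a n * ψ a z
  have hχ : ∀ n, ContDiff ℝ 1 (χ n) := fun n =>
    ContDiff.sum fun a _ => contDiff_const.mul (hψ a)
  have hχc : ∀ n, HasCompactSupport (χ n) := by
    intro n
    refine HasCompactSupport.intro (isCompact_iUnion fun a => hc a) fun z hz => ?_
    have h3 : ∀ a, ψ a z = 0 := fun a =>
      image_eq_zero_of_notMem_tsupport fun h => hz (Set.mem_iUnion.2 ⟨a, h⟩)
    show ∑ a, U a n * ψ a z = 0
    simp [h3]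
  have hχo : ∀ i j, ∫ z, χ i z * χ j z = if i = j then (1 : ℝ) else 0 := by
    intro i j
    have e1 : ∀ z, χ i z * χ j z = ∑ a, ∑ b, U a i * U b j * (ψ a z * ψ b z) := by
      intro z
      show (∑ a, U a i * ψ a z) * (∑ b, U b j * ψ b z) = _
      rw [Finset.sum_mul_sum]
      exact Finset.sum_congr rfl fun a _ => Finset.sum_congr rfl fun b _ => by ring
    simp_rw [e1]
    rw [integral_finsetSum _ fun a _ => integrable_finsetSum _ fun b _ => (hψi a b).const_mul _]
    rw [← rorth hQ i j]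
    refine Finset.sum_congr rfl fun a _ => ?_
    rw [integral_finsetSum _ fun b _ => (hψi a b).const_mul _]
    rw [Finset.sum_eq_single a]
    · rw [integral_const_mul, ho a a, if_pos rfl, mul_one]
    · intro b _ hb
      rw [integral_const_mul, ho a b, if_neg (Ne.symm hb), mul_zero]
    · intro ha
      exact absurd (Finset.mem_univ a) ha
  have hlam : ∀ n, hQ.eigenvalues n = ∫ z, FF W (χ n) (χ n) z := by
    intro n
    rw [reig hQ n]
    show _ = ∫ z, FF W (fun z => ∑ a, U a n * ψ a z) (fun z => ∑ b, U b n * ψ b z) z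
    rw [FF_int hW ψ hψ hc (fun a => U a n) (fun b => U b n)]
    exact Finset.sum_congr rfl fun a _ => Finset.sum_congr rfl fun b _ => by rw [hform a b]
  let E : Fin M → ℝ := fun n => max (-hQ.eigenvalues n) 0
  have hE0 : ∀ n, 0 ≤ E n := fun n => le_max_right _ _
  let ν : Fin M → ℝ := fun n => occ g (E n)
  have hν0 : ∀ n, 0 ≤ ν n := fun n => occ_nonneg hg1 (hE0 n)
  have hνE : ∀ n, ν n * E n = -(ν n * hQ.eigenvalues n) := by
    intro n
    rcases le_or_gt 0 (hQ.eigenvalues n) with h | h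
    · have h1 : E n = 0 := max_eq_right (by linarith)
      have h2 : ν n = 0 := by
        show occ g (E n) = 0
        rw [h1, occ_zero hg1]
      rw [h2]
      ring
    · have h1 : E n = -hQ.eigenvalues n := max_eq_left (by linarith)
      rw [h1]
      ring
  let w : Fin M → (Fin (m + 1) → ℝ) → ℝ := fun n z => √(ν n) * χ n z
  have hw : ∀ n, ContDiff ℝ 1 (w n) := fun n => contDiff_const.mul (hχ n)
  have hwc : ∀ n, HasCompactSupport (w n) := fun n => (hχc n).mul_left
  have hgram : ∀ i j, ∫ z, w i z * w j z = if i = j then ν i else 0 := by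
    intro i j
    have e1 : ∀ z, w i z * w j z = (√(ν i) * √(ν j)) * (χ i z * χ j z) := by
      intro z
      show √(ν i) * χ i z * (√(ν j) * χ j z) = _
      ring
    simp_rw [e1]
    rw [integral_const_mul, hχo i j]
    by_cases h : i = j
    · subst h
      rw [if_pos rfl, if_pos rfl, mul_one, Real.mul_self_sqrt (hν0 i)]
    · rw [if_neg h, if_neg h, mul_zero]
  have hT := T_tw hg one_pos w ν hw hwc hgram
  rw [← hG] at hT
  have hwcs : ∀ n, Continuous (FF W (w n) (w n)) ∧ HasCompactSupport (FF W (w n) (w n)) :=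
    fun n => FF_cs hW (hw n) (hwc n) (hw n) (hwc n)
  have hpd : ∀ (k : Fin (m + 1)) (i : Fin M), Continuous (pd k (w i)) ∧
      HasCompactSupport (pd k (w i)) := fun k i => pd_basic (hw i) (hwc i) k
  have hsqc : ∀ (k : Fin (m + 1)) (i : Fin M), Continuous (fun z => pd k (w i) z ^ 2) :=
    fun k i => (hpd k i).1.pow 2
  have hsqs : ∀ (k : Fin (m + 1)) (i : Fin M), HasCompactSupport (fun z => pd k (w i) z ^ 2) :=
    fun k i => (hpd k i).2.comp_left (g := fun t : ℝ => t ^ 2) (by norm_num)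
  have hK0 : Integrable fun z => ∑ i, pd 0 (w i) z ^ 2 :=
    integrable_finsetSum _ fun i _ => (hsqc 0 i).integrable_of_hasCompactSupport (hsqs 0 i)
  have hK1 : Integrable fun z : Fin (m + 1) → ℝ => Real.exp (2 * z 0) *
      ∑ k : Fin m, ∑ i, pd k.succ (w i) z ^ 2 := by
    refine Continuous.integrable_of_hasCompactSupport ?_ ?_
    · refine Continuous.mul (by fun_prop) ?_
      exact continuous_finsetSum _ fun k _ => continuous_finsetSum _ fun i _ => hsqc k.succ i
    · refine HasCompactSupport.intro (isCompact_iUnion (fun k : Fin m =>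
        isCompact_iUnion (fun i : Fin M => (hsqs k.succ i)))) (fun z hz => ?_)
      have h0 : ∀ (k : Fin m) (i : Fin M), pd k.succ (w i) z ^ 2 = 0 := fun k i =>
        image_eq_zero_of_notMem_tsupport (f := fun z => pd k.succ (w i) z ^ 2)
          (fun h => hz (Set.mem_iUnion.2 ⟨k, Set.mem_iUnion.2 ⟨i, h⟩⟩))
      simp only [h0]
      simp
  have hwi0 : ∀ z, z ∉ (⋃ i, tsupport (w i)) → ∀ i, w i z = 0 := fun z hz i =>
    image_eq_zero_of_notMem_tsupport (fun h => hz (Set.mem_iUnion.2 ⟨i, h⟩))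
  have hρc : Continuous fun z => ∑ i, w i z ^ 2 :=
    continuous_finsetSum _ fun i _ => (hw i).continuous.pow 2
  have hKW : Integrable fun z : Fin (m + 1) → ℝ => Real.exp (2 * z 0) *
      (W z * ∑ i, w i z ^ 2) := by
    refine Continuous.integrable_of_hasCompactSupport ?_ ?_
    · exact Continuous.mul (by fun_prop) (hW.mul hρc)
    · refine HasCompactSupport.intro (isCompact_iUnion fun i => hwc i) (fun z hz => ?_)
      simp [hwi0 z hz]
  have hpp : 0 < pp G := div_pos (by linarith) (by linarith)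
  have hKr : Integrable fun z : Fin (m + 1) → ℝ => Real.exp (kp m g * z 0) *
      (∑ i, w i z ^ 2) ^ pp G := by
    refine Continuous.integrable_of_hasCompactSupport ?_ ?_
    · exact Continuous.mul (by fun_prop) (hρc.rpow_const fun _ => Or.inr hpp.le)
    · refine HasCompactSupport.intro (isCompact_iUnion fun i => hwc i) (fun z hz => ?_)
      have h0 : ∑ i, w i z ^ 2 = 0 := by simp [hwi0 z hz]
      show Real.exp (kp m g * z 0) * (∑ i, w i z ^ 2) ^ pp G = 0
      rw [h0, Real.zero_rpow hpp.ne', mul_zero]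
  have hen : ∑ n, ν n * hQ.eigenvalues n = (∫ z, ∑ i, pd 0 (w i) z ^ 2) +
      (∫ z : Fin (m + 1) → ℝ, Real.exp (2 * z 0) * ∑ k : Fin m, ∑ i, pd k.succ (w i) z ^ 2) -
      ∫ z : Fin (m + 1) → ℝ, Real.exp (2 * z 0) * (W z * ∑ i, w i z ^ 2) := by
    have e1 : ∀ n z, FF W (w n) (w n) z = ν n * FF W (χ n) (χ n) z := by
      intro n z
      unfold FF
      have e2 : ∀ k, pd k (w n) z = √(ν n) * pd k (χ n) z := fun k => pd_smul (hχ n) _ k z
      have e3 : w n z = √(ν n) * χ n z := rfl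
      have e4 : √(ν n) * √(ν n) = ν n := Real.mul_self_sqrt (hν0 n)
      simp only [e2, e3]
      have e5 : ∀ a b : ℝ, √(ν n) * a * (√(ν n) * b) = ν n * (a * b) := by
        intro a b
        calc √(ν n) * a * (√(ν n) * b) = (√(ν n) * √(ν n)) * (a * b) := by ring
          _ = ν n * (a * b) := by rw [e4]
      simp only [e5]
      rw [← Finset.mul_sum]
      ring
    have e2 : ∀ n, ν n * hQ.eigenvalues n = ∫ z, FF W (w n) (w n) z := by
      intro n
      simp_rw [e1 n]
      rw [integral_const_mul, hlam n]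
    rw [Finset.sum_congr rfl fun n _ => e2 n, ← integral_finsetSum _ fun n _ =>
      (hwcs n).1.integrable_of_hasCompactSupport (hwcs n).2]
    refine Eq.trans ?_ ((integral_sub (hK0.add hK1) hKW).trans
      (congrArg₂ (fun x y : ℝ => x - y) (integral_add hK0 hK1) rfl))
    refine integral_congr_ae (Eventually.of_forall fun z => ?_)
    simp only [Pi.add_apply]
    unfold FF
    rw [Finset.sum_sub_distrib, Finset.sum_add_distrib, ← Finset.mul_sum, ← Finset.mul_sum,
      ← Finset.mul_sum, Finset.sum_comm]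
    simp only [sq]
  -- Young
  have hbco : 0 < bco (((m + 1 : ℕ) : ℝ) / 2) g 1 := bco_pos (by positivity) hg1 one_pos
  set B : ℝ := bco (((m + 1 : ℕ) : ℝ) / 2) g 1 with hB
  have hkp := kp_mul (m := m) hg
  rw [← hG] at hkp
  have hrhs : Integrable fun z : Fin (m + 1) → ℝ => Real.exp (-(m * z 0)) *
      (Real.exp (2 * z 0) * max (W z) 0) ^ G := by
    refine Continuous.integrable_of_hasCompactSupport ?_ ?_
    · refine Continuous.mul (by fun_prop) (Continuous.rpow_const ?_ fun _ => Or.inr (by linarith))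
      exact Continuous.mul (by fun_prop) (hW.max continuous_const)
    · refine HasCompactSupport.intro hWc (fun z hz => ?_)
      have h0 : max (W z) 0 = 0 :=
        image_eq_zero_of_notMem_tsupport (f := fun z => max (W z) 0) hz
      rw [h0, mul_zero, Real.zero_rpow (by linarith), mul_zero]
  have hY : (∫ z : Fin (m + 1) → ℝ, Real.exp (2 * z 0) * (W z * ∑ i, w i z ^ 2)) -
      B * (∫ z : Fin (m + 1) → ℝ, Real.exp (kp m g * z 0) * (∑ i, w i z ^ 2) ^ pp G) ≤
      cc G * B ^ (-(G - 1)) * ∫ z : Fin (m + 1) → ℝ, Real.exp (-(m * z 0)) *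
        (Real.exp (2 * z 0) * max (W z) 0) ^ G := by
    rw [← integral_const_mul, ← integral_const_mul, ← integral_sub hKW (hKr.const_mul B)]
    refine integral_mono (hKW.sub (hKr.const_mul B)) (hrhs.const_mul _) fun z => ?_
    have hρ0 : 0 ≤ ∑ i, w i z ^ 2 := Finset.sum_nonneg fun i _ => sq_nonneg _
    have h1 := young hG1 (x := Real.exp (2 * z 0) * max (W z) 0) (ρ := ∑ i, w i z ^ 2)
      (b := B * Real.exp (kp m g * z 0)) (mul_nonneg (Real.exp_pos _).le (le_max_right _ _)) hρ0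
      (mul_pos hbco (Real.exp_pos _))
    have h2 : Real.exp (2 * z 0) * (W z * ∑ i, w i z ^ 2) ≤
        Real.exp (2 * z 0) * max (W z) 0 * ∑ i, w i z ^ 2 := by
      rw [mul_assoc]
      exact mul_le_mul_of_nonneg_left (mul_le_mul_of_nonneg_right (le_max_left _ _) hρ0)
        (Real.exp_pos _).le
    have h3 : (B * Real.exp (kp m g * z 0)) ^ (-(G - 1)) =
        B ^ (-(G - 1)) * Real.exp (-(m * z 0)) := by
      rw [Real.mul_rpow hbco.le (Real.exp_pos _).le, ← Real.exp_mul]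
      congr 2
      rw [← hkp]
      ring
    rw [h3] at h1
    simp only
    calc Real.exp (2 * z 0) * (W z * ∑ i, w i z ^ 2) -
          B * (Real.exp (kp m g * z 0) * (∑ i, w i z ^ 2) ^ pp G) ≤
        Real.exp (2 * z 0) * max (W z) 0 * (∑ i, w i z ^ 2) -
          B * Real.exp (kp m g * z 0) * (∑ i, w i z ^ 2) ^ pp G := by
          rw [mul_assoc B]
          linarith
      _ ≤ _ := h1
      _ = _ := by ring
  have hcc : 0 < cc g := bco_succ_cc_pos hg1
  have hbd := bco_dual (h := ((m + 1 : ℕ) : ℝ) / 2) (by positivity) hg1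
  rw [← hG, ← hB] at hbd
  rw [hbd] at hY
  have hsum : cc g * ∑ n, E n ^ g = -(∑ n, ν n * hQ.eigenvalues n) - ∑ n, ν n ^ pp g := by
    rw [Finset.mul_sum, ← Finset.sum_neg_distrib, ← Finset.sum_sub_distrib]
    refine Finset.sum_congr rfl fun n _ => ?_
    rw [← hνE n]
    exact (occ_eq hg1 (hE0 n)).symm
  have hfin : cc g * ∑ n, E n ^ g ≤ cc g * (Lc (((m + 1 : ℕ) : ℝ) / 2) g *
      ∫ z : Fin (m + 1) → ℝ, Real.exp (-(m * z 0)) *
        (Real.exp (2 * z 0) * max (W z) 0) ^ G) := by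
    rw [hsum, hen, ← mul_assoc]
    linarith
  exact le_of_mul_le_mul_left hfin hcc

end Pool.Agent.U281.CY
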