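import Pool.Agent.U281.CY.Phi

/-!
# The energy in the logarithmic variables
-/

set_option autoImplicit false

open MeasureTheory Set Filter Topology

namespace Pool.Agent.U281.CY

open Pool.Agent.N537.RS Pool.Agent.R117.RL LTd

variable {m : ℕ}

theorem ibp {n : ℕ} {f : (Fin n → ℝ) → ℝ} (hf : ContDiff ℝ 1 f) (hc : HasCompactSupport f)
    (v : Fin n → ℝ) : ∫ z, f z * fderiv ℝ f z v = 0 := by
  have h1 : Continuous fun z => fderiv ℝ f z v :=
    (hf.continuous_fderiv (by norm_num)).clm_apply continuous_const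
  have h2 : Integrable fun z => f z * fderiv ℝ f z v :=
    (hf.continuous.mul h1).integrable_of_hasCompactSupport hc.mul_right
  have h3 : Integrable fun z => fderiv ℝ f z v * f z := by
    refine h2.congr (Eventually.of_forall fun z => ?_)
    simp only
    ring
  have h4 : Integrable fun z => f z * f z :=
    (hf.continuous.mul hf.continuous).integrable_of_hasCompactSupport hc.mul_right
  have h5 := integral_mul_fderiv_eq_neg_fderiv_mul_of_integrable (μ := volume) (f := f) (g := f)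
    (v := v) h3 h2 h4 (fun x _ => hf.differentiable one_ne_zero x)
    (fun x _ => hf.differentiable one_ne_zero x)
  have h6 : ∫ z, fderiv ℝ f z v * f z = ∫ z, f z * fderiv ℝ f z v := by
    congr 1
    funext z
    ring
  rw [h6] at h5
  linarith

theorem cross {φ : (Fin (m + 1) → ℝ) → ℂ} (hφ : ContDiff ℝ 1 φ) (hc : HasCompactSupport φ) :
    Integrable (fun z => (star (φ z) * cd 0 φ z).re) ∧
    ∫ z, (star (φ z) * cd 0 φ z).re = 0 := by
  have hre : ContDiff ℝ 1 fun z => (φ z).re := Complex.reCLM.contDiff.comp hφ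
  have him : ContDiff ℝ 1 fun z => (φ z).im := Complex.imCLM.contDiff.comp hφ
  have hrc : HasCompactSupport fun z => (φ z).re :=
    hc.comp_left (g := Complex.re) Complex.zero_re
  have hic : HasCompactSupport fun z => (φ z).im :=
    hc.comp_left (g := Complex.im) Complex.zero_im
  have d1 : ∀ z, fderiv ℝ (fun z => (φ z).re) z (Pi.single 0 1) = (cd 0 φ z).re := by
    intro z
    have h1 : HasFDerivAt (fun z => (φ z).re) (Complex.reCLM.comp (fderiv ℝ φ z)) z :=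
      Complex.reCLM.hasFDerivAt.comp z ((hφ.differentiable one_ne_zero) z).hasFDerivAt
    rw [h1.fderiv]
    rfl
  have d2 : ∀ z, fderiv ℝ (fun z => (φ z).im) z (Pi.single 0 1) = (cd 0 φ z).im := by
    intro z
    have h1 : HasFDerivAt (fun z => (φ z).im) (Complex.imCLM.comp (fderiv ℝ φ z)) z :=
      Complex.imCLM.hasFDerivAt.comp z ((hφ.differentiable one_ne_zero) z).hasFDerivAt
    rw [h1.fderiv]
    rfl
  have e1 := ibp hre hrc (Pi.single 0 1)
  have e2 := ibp him hic (Pi.single 0 1)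
  have c1 : Continuous fun z => fderiv ℝ (fun z => (φ z).re) z (Pi.single 0 1) :=
    (hre.continuous_fderiv (by norm_num)).clm_apply continuous_const
  have c2 : Continuous fun z => fderiv ℝ (fun z => (φ z).im) z (Pi.single 0 1) :=
    (him.continuous_fderiv (by norm_num)).clm_apply continuous_const
  have i1 : Integrable fun z => (φ z).re * fderiv ℝ (fun z => (φ z).re) z (Pi.single 0 1) :=
    (hre.continuous.mul c1).integrable_of_hasCompactSupport hrc.mul_right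
  have i2 : Integrable fun z => (φ z).im * fderiv ℝ (fun z => (φ z).im) z (Pi.single 0 1) :=
    (him.continuous.mul c2).integrable_of_hasCompactSupport hic.mul_right
  have e3 : ∀ z, (star (φ z) * cd 0 φ z).re =
      (φ z).re * fderiv ℝ (fun z => (φ z).re) z (Pi.single 0 1) +
      (φ z).im * fderiv ℝ (fun z => (φ z).im) z (Pi.single 0 1) := by
    intro z
    rw [d1, d2, Complex.mul_re, Complex.star_def, Complex.conj_re, Complex.conj_im]
    ring
  simp only [e3]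
  refine ⟨i1.add i2, ?_⟩
  rw [integral_add i1 i2, e1, e2, add_zero]

/-- the energy density of the shell -/
noncomputable def Fe (l : ℕ) (lam : ℝ) (G : ℝ × (Fin m → ℝ) → ℂ) (p : ℝ × (Fin m → ℝ)) : ℝ :=
  ‖(p.1 ^ l) • Gr G p + ((l : ℝ) * p.1 ^ (l - 1)) • G p‖ ^ 2 +
    lam * (‖(p.1 ^ l) • G p‖ ^ 2 / p.1 ^ 2) + p.1 ^ (2 * l) * ∑ i, ‖Gy i G p‖ ^ 2

theorem Fe_zero (l : ℕ) (lam : ℝ) {G : ℝ × (Fin m → ℝ) → ℂ} {p : ℝ × (Fin m → ℝ)}
    (hp : p ∉ tsupport G) : Fe l lam G p = 0 := by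
  have h1 : G p = 0 := image_eq_zero_of_notMem_tsupport hp
  have h2 : fderiv ℝ G p = 0 :=
    image_eq_zero_of_notMem_tsupport fun h => hp (tsupport_fderiv_subset ℝ h)
  unfold Fe Gr Gy
  simp [h1, h2]

theorem Fe_cont (l : ℕ) (lam : ℝ) {G : ℝ × (Fin m → ℝ) → ℂ} (hG : ContDiff ℝ 1 G)
    (h0 : ∀ p ∈ tsupport G, 0 < p.1) : Continuous (Fe l lam G) := by
  refine cont_of_supp (isClosed_tsupport G) (fun p hp => Fe_zero l lam hp) fun p hp => ?_
  have hd : Continuous (fderiv ℝ G) := hG.continuous_fderiv (by norm_num)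
  have h1 : Continuous (Gr G) := hd.clm_apply continuous_const
  have h2 : ∀ i, Continuous (Gy i G) := fun i => hd.clm_apply continuous_const
  have h3 : Continuous G := hG.continuous
  have hne : p.1 ^ 2 ≠ 0 := (pow_pos (h0 p hp) 2).ne'
  unfold Fe
  refine ContinuousAt.add (ContinuousAt.add ?_ ?_) ?_
  · exact (Continuous.pow (Continuous.norm (((continuous_fst.pow l).smul h1).add
      ((continuous_const.mul (continuous_fst.pow (l - 1))).smul h3))) 2).continuousAt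
  · refine ContinuousAt.mul continuousAt_const (ContinuousAt.div ?_ ?_ hne)
    · exact (Continuous.pow (Continuous.norm ((continuous_fst.pow l).smul h3)) 2).continuousAt
    · exact (continuous_fst.pow 2).continuousAt
  · exact ((continuous_fst.pow (2 * l)).mul
      (continuous_finsetSum _ fun i _ => (h2 i).norm.pow 2)).continuousAt

theorem en_point {κ l : ℕ} {s lam : ℝ} (hs : 0 < s) {G : ℝ × (Fin m → ℝ) → ℂ}
    (hG : ContDiff ℝ 1 G) (z : Fin (m + 1) → ℝ) :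
    Real.exp (((κ : ℝ) + 1) * z 0) * (s * Fe l lam G (Th z)) =
      ‖cd 0 (Ph s ((l : ℝ) + ((κ : ℝ) - 1) / 2) G) z -
        ((((κ : ℝ) - 1) / 2 : ℝ) : ℂ) * Ph s ((l : ℝ) + ((κ : ℝ) - 1) / 2) G z‖ ^ 2 +
      lam * ‖Ph s ((l : ℝ) + ((κ : ℝ) - 1) / 2) G z‖ ^ 2 + Real.exp (2 * z 0) *
        ∑ i : Fin m, ‖cd i.succ (Ph s ((l : ℝ) + ((κ : ℝ) - 1) / 2) G) z‖ ^ 2 := by
  obtain ⟨r, hr⟩ : ∃ r : ℝ, r = Real.exp (z 0) := ⟨_, rfl⟩
  have hr0 : 0 < r := by rw [hr]; exact Real.exp_pos _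
  have hT : (Th z).1 = r := hr.symm
  have hC2 : (√s * Real.exp (((l : ℝ) + ((κ : ℝ) - 1) / 2) * z 0)) ^ 2 =
      s * (Real.exp (((κ : ℝ) - 1) * z 0) * r ^ (2 * l)) := by
    rw [mul_pow, Real.sq_sqrt hs.le, hr, ← Real.exp_nat_mul, ← Real.exp_nat_mul, ← Real.exp_add]
    congr 2
    push_cast
    ring
  have hK : Real.exp (((κ : ℝ) + 1) * z 0) = Real.exp (((κ : ℝ) - 1) * z 0) * r ^ 2 := by
    rw [hr, ← Real.exp_nat_mul, ← Real.exp_add]
    congr 1
    push_cast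
    ring
  have h2 : Real.exp (2 * z 0) = r ^ 2 := by
    rw [hr, ← Real.exp_nat_mul]
    congr 1
  have hn : ∀ w : ℂ, ‖((√s * Real.exp (((l : ℝ) + ((κ : ℝ) - 1) / 2) * z 0) : ℝ) : ℂ) * w‖ ^ 2 =
      s * (Real.exp (((κ : ℝ) - 1) * z 0) * r ^ (2 * l)) * ‖w‖ ^ 2 := by
    intro w
    rw [norm_mul, mul_pow, Complex.norm_real, Real.norm_eq_abs, sq_abs, hC2]
  have e0 : cd 0 (Ph s ((l : ℝ) + ((κ : ℝ) - 1) / 2) G) z -
        ((((κ : ℝ) - 1) / 2 : ℝ) : ℂ) * Ph s ((l : ℝ) + ((κ : ℝ) - 1) / 2) G z =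
      ((√s * Real.exp (((l : ℝ) + ((κ : ℝ) - 1) / 2) * z 0) : ℝ) : ℂ) *
        ((r : ℂ) * Gr G (Th z) + (l : ℂ) * G (Th z)) := by
    rw [cd0 s _ hG]
    unfold Ph
    rw [← hr]
    push_cast
    ring
  have e1 : r ^ 2 * ‖(r ^ l) • Gr G (Th z) + ((l : ℝ) * r ^ (l - 1)) • G (Th z)‖ ^ 2 =
      r ^ (2 * l) * ‖(r : ℂ) * Gr G (Th z) + (l : ℂ) * G (Th z)‖ ^ 2 := by
    have e2 : ((r : ℝ) : ℂ) * ((r ^ l) • Gr G (Th z) + ((l : ℝ) * r ^ (l - 1)) • G (Th z)) =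
        ((r ^ l : ℝ) : ℂ) * ((r : ℂ) * Gr G (Th z) + (l : ℂ) * G (Th z)) := by
      simp only [Complex.real_smul]
      rcases l with _ | l
      · push_cast
        simp
      · rw [Nat.add_sub_cancel]
        push_cast
        ring
    have e3 := congrArg (fun w : ℂ => ‖w‖ ^ 2) e2
    simp only [norm_mul, mul_pow, Complex.norm_real, Real.norm_eq_abs, sq_abs] at e3
    rw [e3, ← pow_mul, mul_comm l 2]
  have e4 : ‖(r ^ l) • G (Th z)‖ ^ 2 = r ^ (2 * l) * ‖G (Th z)‖ ^ 2 := by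
    rw [norm_smul, mul_pow, Real.norm_eq_abs, sq_abs, ← pow_mul, mul_comm l 2]
  have e5 : ∀ i : Fin m, ‖cd i.succ (Ph s ((l : ℝ) + ((κ : ℝ) - 1) / 2) G) z‖ ^ 2 =
      s * (Real.exp (((κ : ℝ) - 1) * z 0) * r ^ (2 * l)) * ‖Gy i G (Th z)‖ ^ 2 := by
    intro i
    rw [cdi s _ hG, hn]
  have e6 : ‖Ph s ((l : ℝ) + ((κ : ℝ) - 1) / 2) G z‖ ^ 2 =
      s * (Real.exp (((κ : ℝ) - 1) * z 0) * r ^ (2 * l)) * ‖G (Th z)‖ ^ 2 := by
    unfold Ph
    rw [hn]
  rw [e0, hn, Finset.sum_congr rfl fun i _ => e5 i, ← Finset.mul_sum, e6, hK, h2]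
  unfold Fe
  rw [hT, e4]
  have e7 : Real.exp (((κ : ℝ) - 1) * z 0) * r ^ 2 *
      (s * (‖(r ^ l) • Gr G (Th z) + ((l : ℝ) * r ^ (l - 1)) • G (Th z)‖ ^ 2 +
        lam * (r ^ (2 * l) * ‖G (Th z)‖ ^ 2 / r ^ 2) +
        r ^ (2 * l) * ∑ i, ‖Gy i G (Th z)‖ ^ 2)) =
      Real.exp (((κ : ℝ) - 1) * z 0) * s *
        (r ^ 2 * ‖(r ^ l) • Gr G (Th z) + ((l : ℝ) * r ^ (l - 1)) • G (Th z)‖ ^ 2) +
      Real.exp (((κ : ℝ) - 1) * z 0) * s * lam * (r ^ (2 * l) * ‖G (Th z)‖ ^ 2) +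
      Real.exp (((κ : ℝ) - 1) * z 0) * s * (r ^ 2 * (r ^ (2 * l) *
        ∑ i, ‖Gy i G (Th z)‖ ^ 2)) := by
    have : r ^ 2 ≠ 0 := (pow_pos hr0 2).ne'
    field_simp
  rw [e7, e1]
  ring

theorem en_int {κ l : ℕ} {s lam : ℝ} (hs : 0 < s) {G : ℝ × (Fin m → ℝ) → ℂ}
    (hG : ContDiff ℝ 1 G) (hc : HasCompactSupport G) (h0 : ∀ p ∈ tsupport G, 0 < p.1) :
    ∫ z : Fin (m + 1) → ℝ, Real.exp (((κ : ℝ) + 1) * z 0) * (s * Fe l lam G (Th z)) =
      (∫ z, KE (Ph s ((l : ℝ) + ((κ : ℝ) - 1) / 2) G) z) +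
      ((((κ : ℝ) - 1) / 2) ^ 2 + lam) *
        ∫ z, ‖Ph s ((l : ℝ) + ((κ : ℝ) - 1) / 2) G z‖ ^ 2 := by
  set φ := Ph s ((l : ℝ) + ((κ : ℝ) - 1) / 2) G with hφdef
  have hφ : ContDiff ℝ 1 φ := Ph_smooth s _ hG
  have hφc : HasCompactSupport φ := Ph_supp s _ hc h0
  obtain ⟨i1, e1⟩ := cross hφ hφc
  have i2 : Integrable (KE φ) :=
    (KE_cs hφ hφc).1.integrable_of_hasCompactSupport (KE_cs hφ hφc).2
  have i3 : Integrable fun z => ‖φ z‖ ^ 2 := by
    refine (hφ.continuous.norm.pow 2).integrable_of_hasCompactSupport ?_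
    refine HasCompactSupport.intro hφc fun z hz => ?_
    have h3 : φ z = 0 := image_eq_zero_of_notMem_tsupport hz
    simp [h3]
  have e2 : ∀ z : Fin (m + 1) → ℝ, Real.exp (((κ : ℝ) + 1) * z 0) * (s * Fe l lam G (Th z)) =
      KE φ z + ((((κ : ℝ) - 1) / 2) ^ 2 + lam) * ‖φ z‖ ^ 2 +
        (-(2 * (((κ : ℝ) - 1) / 2))) * (star (φ z) * cd 0 φ z).re := by
    intro z
    rw [en_point hs hG, ← hφdef]
    have e3 : ‖cd 0 φ z - ((((κ : ℝ) - 1) / 2 : ℝ) : ℂ) * φ z‖ ^ 2 = ‖cd 0 φ z‖ ^ 2 -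
        2 * (((κ : ℝ) - 1) / 2) * (star (φ z) * cd 0 φ z).re +
        (((κ : ℝ) - 1) / 2) ^ 2 * ‖φ z‖ ^ 2 := by
      rw [← Complex.normSq_eq_norm_sq, ← Complex.normSq_eq_norm_sq, ← Complex.normSq_eq_norm_sq,
        Complex.normSq_apply, Complex.normSq_apply, Complex.normSq_apply]
      simp only [Complex.sub_re, Complex.sub_im, Complex.mul_re, Complex.mul_im,
        Complex.ofReal_re, Complex.ofReal_im, Complex.star_def, Complex.conj_re, Complex.conj_im]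
      ring
    rw [e3]
    unfold KE
    ring
  simp_rw [e2]
  have i4 : Integrable fun z => KE φ z + ((((κ : ℝ) - 1) / 2) ^ 2 + lam) * ‖φ z‖ ^ 2 :=
    i2.add (i3.const_mul _)
  rw [integral_add i4 (i1.const_mul _), integral_add i2 (i3.const_mul _), integral_const_mul,
    integral_const_mul, e1, mul_zero, add_zero]

end Pool.Agent.U281.CY
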