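import Pool.Agent.U281.CY.Du2

/-!
# The kinetic inequality in the variables `(t, y)`
-/

set_option autoImplicit false

open MeasureTheory Set Filter Topology

namespace Pool.Agent.U281.CY

open LTd Pool.Agent.N537.RS Pool.Agent.R117.RL

/-- the density -/
noncomputable def Dn {m : ℕ} (Λ : Finset ℕ) (g N : ℕ → ℕ)
    (φ : ∀ l, Fin (N l) → (Fin (m + 1) → ℝ) → ℂ) (z : Fin (m + 1) → ℝ) : ℝ :=
  ∑ l ∈ Λ, (g l : ℝ) * ∑ n, ‖φ l n z‖ ^ 2

/-- the constant -/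
noncomputable def BB (k m : ℕ) : ℝ :=
  2 / ((k - 1).factorial : ℝ) * Lc (((m + 1 : ℕ) : ℝ) / 2) (((k : ℝ) - 1) / 2)

theorem BB_pos {k m : ℕ} (hk : 6 ≤ k) : 0 < BB k m := by
  have hk' : (6 : ℝ) ≤ k := by exact_mod_cast hk
  have hfac : (0 : ℝ) < ((k - 1).factorial : ℝ) := by exact_mod_cast Nat.factorial_pos _
  have hLc : 0 < Lc (((m + 1 : ℕ) : ℝ) / 2) (((k : ℝ) - 1) / 2) :=
    Lc_nonneg (by positivity) (by linarith)
  unfold BB
  positivity

theorem kin {k m : ℕ} (hk : 6 ≤ k) {Λ : Finset ℕ} {g N : ℕ → ℕ}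
    (hg : ∀ l ∈ Λ, g l ≤ hdim k l) {φ : ∀ l, Fin (N l) → (Fin (m + 1) → ℝ) → ℂ}
    (h : Fam Λ N φ) :
    ((k + m : ℕ) : ℝ) / (((k + m : ℕ) : ℝ) + 2) * BB k m ^ (-(2 / ((k + m : ℕ) : ℝ))) *
      (∫ z : Fin (m + 1) → ℝ, Real.exp (k * z 0) *
        (Real.exp (-(((k : ℝ) - 2) * z 0)) * Dn Λ g N φ z) ^ (1 + 2 / ((k + m : ℕ) : ℝ))) ≤
    ∑ l ∈ Λ, (g l : ℝ) * ∑ n, ((∫ z, KE (φ l n) z) +
      ((l : ℝ) + ((k : ℝ) - 2) / 2) ^ 2 * ∫ z, ‖φ l n z‖ ^ 2) := by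
  have hk' : (6 : ℝ) ≤ k := by exact_mod_cast hk
  have hm0 : (0 : ℝ) ≤ (m : ℝ) := Nat.cast_nonneg m
  have hdc : ((k + m : ℕ) : ℝ) = (k : ℝ) + m := by push_cast; ring
  have hB := BB_pos (m := m) hk
  set d : ℝ := ((k + m : ℕ) : ℝ) with hd
  have hd0 : 0 < d := by rw [hdc]; linarith
  set B : ℝ := BB k m with hBdef
  set R : (Fin (m + 1) → ℝ) → ℝ := fun z =>
    Real.exp (-(((k : ℝ) - 2) * z 0)) * Dn Λ g N φ z with hR
  have hDc : Continuous (Dn Λ g N φ) := by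
    unfold Dn
    exact continuous_finsetSum _ fun l hl => continuous_const.mul
      (continuous_finsetSum _ fun n _ => ((h.smooth l hl n).continuous.norm.pow 2))
  have hD0 : ∀ z, 0 ≤ Dn Λ g N φ z := by
    intro z
    unfold Dn
    positivity
  have hK : IsCompact (⋃ l : {x // x ∈ Λ}, ⋃ n, tsupport (φ l.1 n)) :=
    isCompact_iUnion fun l => isCompact_iUnion fun n => h.supp l.1 l.2 n
  have hDz : ∀ z, z ∉ (⋃ l : {x // x ∈ Λ}, ⋃ n, tsupport (φ l.1 n)) → Dn Λ g N φ z = 0 := by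
    intro z hz
    unfold Dn
    refine Finset.sum_eq_zero fun l hl => ?_
    have h3 : ∀ n, φ l n z = 0 := fun n => image_eq_zero_of_notMem_tsupport fun h =>
      hz (Set.mem_iUnion.2 ⟨⟨l, hl⟩, Set.mem_iUnion.2 ⟨n, h⟩⟩)
    simp [h3]
  have hRc : Continuous R := Continuous.mul (by fun_prop) hDc
  have hR0 : ∀ z, 0 ≤ R z := fun z => mul_nonneg (Real.exp_pos _).le (hD0 z)
  have hRz : ∀ z, z ∉ (⋃ l : {x // x ∈ Λ}, ⋃ n, tsupport (φ l.1 n)) → R z = 0 := by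
    intro z hz
    show Real.exp (-(((k : ℝ) - 2) * z 0)) * Dn Λ g N φ z = 0
    rw [hDz z hz, mul_zero]
  set c : ℝ := B ^ (-(2 / d)) with hc
  have hc0 : 0 < c := Real.rpow_pos_of_pos hB _
  have h2d : 0 < 2 / d := by positivity
  set V : (Fin (m + 1) → ℝ) → ℝ := fun z => c * R z ^ (2 / d) with hV
  have hVc : Continuous V := continuous_const.mul (hRc.rpow_const fun _ => Or.inr h2d.le)
  have hV0 : ∀ z, 0 ≤ V z := fun z => mul_nonneg hc0.le (Real.rpow_nonneg (hR0 z) _)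
  have hVs : HasCompactSupport V := by
    refine HasCompactSupport.intro hK fun z hz => ?_
    show c * R z ^ (2 / d) = 0
    rw [hRz z hz, Real.zero_rpow h2d.ne', mul_zero]
  have hdual := dual hk hg h hVc hVs hV0
  rw [← hd] at hdual
  have hF : Continuous fun z : Fin (m + 1) → ℝ => Real.exp (k * z 0) * R z ^ (1 + 2 / d) :=
    Continuous.mul (by fun_prop) (hRc.rpow_const fun _ => Or.inr (by positivity))
  set I : ℝ := ∫ z : Fin (m + 1) → ℝ, Real.exp (k * z 0) * R z ^ (1 + 2 / d) with hI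
  have hpow : ∀ z, V z ^ (1 + d / 2) = c * B⁻¹ * R z ^ (1 + 2 / d) := by
    intro z
    show (c * R z ^ (2 / d)) ^ (1 + d / 2) = _
    rw [Real.mul_rpow hc0.le (Real.rpow_nonneg (hR0 z) _), ← Real.rpow_mul (hR0 z)]
    have e1 : 2 / d * (1 + d / 2) = 1 + 2 / d := by
      field_simp
      ring
    have e2 : c ^ (1 + d / 2) = c * B⁻¹ := by
      rw [Real.rpow_add hc0, Real.rpow_one, hc, ← Real.rpow_mul hB.le (-(2 / d)) (d / 2)]
      have : -(2 / d) * (d / 2) = -1 := by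
        field_simp
      rw [this, Real.rpow_neg_one]
    rw [e1, e2]
  have hright : ∫ z : Fin (m + 1) → ℝ, Real.exp (k * z 0) * V z ^ (1 + d / 2) = c * B⁻¹ * I := by
    rw [hI, ← integral_const_mul]
    refine integral_congr_ae (Eventually.of_forall fun z => ?_)
    simp only [hpow]
    ring
  have hleft : (∑ l ∈ Λ, (g l : ℝ) * ∑ n, ∫ z : Fin (m + 1) → ℝ,
      Real.exp (2 * z 0) * (V z * ‖φ l n z‖ ^ 2)) = c * I := by
    have hVi : ∀ l ∈ Λ, ∀ n, Integrable fun z : Fin (m + 1) → ℝ =>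
        Real.exp (2 * z 0) * (V z * ‖φ l n z‖ ^ 2) := by
      intro l hl n
      refine Continuous.integrable_of_hasCompactSupport ?_ ?_
      · exact Continuous.mul (by fun_prop) (hVc.mul ((h.smooth l hl n).continuous.norm.pow 2))
      · refine HasCompactSupport.intro hVs fun z hz => ?_
        have h3 : V z = 0 := image_eq_zero_of_notMem_tsupport hz
        simp [h3]
    have e1 : (∑ l ∈ Λ, (g l : ℝ) * ∑ n, ∫ z : Fin (m + 1) → ℝ,
        Real.exp (2 * z 0) * (V z * ‖φ l n z‖ ^ 2)) =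
        ∫ z : Fin (m + 1) → ℝ, ∑ l ∈ Λ, (g l : ℝ) * ∑ n,
          Real.exp (2 * z 0) * (V z * ‖φ l n z‖ ^ 2) := by
      rw [integral_finsetSum _ fun l hl => (integrable_finsetSum _ fun n _ =>
        hVi l hl n).const_mul _]
      refine Finset.sum_congr rfl fun l hl => ?_
      rw [integral_const_mul, integral_finsetSum _ fun n _ => hVi l hl n]
    rw [e1, hI, ← integral_const_mul]
    refine integral_congr_ae (Eventually.of_forall fun z => ?_)
    simp only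
    have e2 : ∑ l ∈ Λ, (g l : ℝ) * ∑ n, Real.exp (2 * z 0) * (V z * ‖φ l n z‖ ^ 2) =
        Real.exp (2 * z 0) * V z * Dn Λ g N φ z := by
      unfold Dn
      simp only [Finset.mul_sum]
      refine Finset.sum_congr rfl fun l _ => Finset.sum_congr rfl fun n _ => ?_
      ring
    rw [e2]
    have e3 : Dn Λ g N φ z = Real.exp (((k : ℝ) - 2) * z 0) * R z := by
      show _ = Real.exp (((k : ℝ) - 2) * z 0) *
        (Real.exp (-(((k : ℝ) - 2) * z 0)) * Dn Λ g N φ z)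
      rw [← mul_assoc, ← Real.exp_add, add_neg_cancel, Real.exp_zero, one_mul]
    have e4 : Real.exp (k * z 0) = Real.exp (2 * z 0) * Real.exp (((k : ℝ) - 2) * z 0) := by
      rw [← Real.exp_add]
      congr 1
      ring
    have e5 : R z ^ (1 + 2 / d) = R z ^ (2 / d) * R z := by
      rcases (hR0 z).eq_or_lt with h0 | h0
      · rw [← h0, Real.zero_rpow (by positivity), mul_zero]
      · rw [add_comm, Real.rpow_add h0, Real.rpow_one]
    rw [e3, e4, e5]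
    show Real.exp (2 * z 0) * (c * R z ^ (2 / d)) * (Real.exp (((k : ℝ) - 2) * z 0) * R z) = _
    ring
  have hsplit : (∑ l ∈ Λ, (g l : ℝ) * ∑ n, ((∫ z : Fin (m + 1) → ℝ,
      Real.exp (2 * z 0) * (V z * ‖φ l n z‖ ^ 2)) - (∫ z, KE (φ l n) z) -
      ((l : ℝ) + ((k : ℝ) - 2) / 2) ^ 2 * ∫ z, ‖φ l n z‖ ^ 2)) =
      (∑ l ∈ Λ, (g l : ℝ) * ∑ n, ∫ z : Fin (m + 1) → ℝ,
        Real.exp (2 * z 0) * (V z * ‖φ l n z‖ ^ 2)) -
      ∑ l ∈ Λ, (g l : ℝ) * ∑ n, ((∫ z, KE (φ l n) z) +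
      ((l : ℝ) + ((k : ℝ) - 2) / 2) ^ 2 * ∫ z, ‖φ l n z‖ ^ 2) := by
    rw [← Finset.sum_sub_distrib]
    refine Finset.sum_congr rfl fun l _ => ?_
    rw [← mul_sub, ← Finset.sum_sub_distrib]
    congr 1
    refine Finset.sum_congr rfl fun n _ => ?_
    ring
  rw [hsplit, hleft, hright] at hdual
  have e6 : 2 / ((k - 1).factorial : ℝ) * Lc (((m + 1 : ℕ) : ℝ) / 2) (((k : ℝ) - 1) / 2) = B := rfl
  rw [e6] at hdual
  have e7 : B * (2 / (d + 2)) * (c * B⁻¹ * I) = 2 / (d + 2) * c * I := by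
    field_simp
  rw [e7] at hdual
  have e8 : d / (d + 2) * c * I = c * I - 2 / (d + 2) * c * I := by
    field_simp
    ring
  rw [e8]
  linarith

theorem om_eq {d : ℕ} (hd : 0 < d) : om d = √Real.pi ^ d / Ga d := by
  have : Nonempty (Fin d) := ⟨⟨0, hd⟩⟩
  unfold om
  rw [EuclideanSpace.volume_ball, Fintype.card_fin, ENNReal.ofReal_one, one_pow, one_mul,
    ENNReal.toReal_ofReal (by
      have := Ga_pos d
      unfold Ga at this
      positivity)]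
  rfl

theorem BB_eq {k m : ℕ} (hk : 6 ≤ k) : sg k / BB k m = (2 * Real.pi) ^ (k + m) / om (k + m) := by
  have hk0 : 0 < k := by omega
  have hk' : (6 : ℝ) ≤ k := by exact_mod_cast hk
  have hπ := Real.pi_pos
  have hs : 0 < √Real.pi := Real.sqrt_pos.2 hπ
  have hGk := Ga_pos k
  have hGd := Ga_pos (k + m)
  have hg1 : 0 < Real.Gamma ((k : ℝ) / 2) := Real.Gamma_pos_of_pos (by positivity)
  have hg2 : 0 < Real.Gamma ((k : ℝ) / 2 + 1 / 2) := Real.Gamma_pos_of_pos (by positivity)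
  have hfac : (0 : ℝ) < ((k - 1).factorial : ℝ) := by exact_mod_cast Nat.factorial_pos _
  have hdup := Real.Gamma_mul_Gamma_add_half ((k : ℝ) / 2)
  have hGn : Real.Gamma (2 * ((k : ℝ) / 2)) = ((k - 1).factorial : ℝ) := by
    have e1 : 2 * ((k : ℝ) / 2) = ((k - 1 : ℕ) : ℝ) + 1 := by
      rw [Nat.cast_sub (by omega)]
      push_cast
      ring
    rw [e1, Real.Gamma_nat_eq_factorial]
  have hGak : Ga k = (k : ℝ) / 2 * Real.Gamma ((k : ℝ) / 2) := by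
    unfold Ga
    rw [Real.Gamma_add_one (by positivity)]
  have h2k : (2 : ℝ) ^ (1 - 2 * ((k : ℝ) / 2)) = 2 / 2 ^ k := by
    have e1 : 1 - 2 * ((k : ℝ) / 2) = 1 - (k : ℝ) := by ring
    rw [e1, Real.rpow_sub two_pos, Real.rpow_one, Real.rpow_natCast]
  rw [hGn, h2k] at hdup
  have hLc : Lc (((m + 1 : ℕ) : ℝ) / 2) (((k : ℝ) - 1) / 2) =
      Real.Gamma ((k : ℝ) / 2 + 1 / 2) / ((2 * √Real.pi) ^ (m + 1) * Ga (k + m)) := by
    unfold Lc Ga
    have e1 : ((k : ℝ) - 1) / 2 + 1 = (k : ℝ) / 2 + 1 / 2 := by ring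
    have e2 : ((k : ℝ) - 1) / 2 + 1 + ((m + 1 : ℕ) : ℝ) / 2 = ((k + m : ℕ) : ℝ) / 2 + 1 := by
      push_cast
      ring
    rw [e2, e1]
    congr 2
    have e3 : (2 * √Real.pi) = (4 * Real.pi) ^ ((1 : ℝ) / 2) := by
      rw [← Real.sqrt_eq_rpow, Real.sqrt_mul (by norm_num)]
      congr 1
      rw [show (4 : ℝ) = 2 ^ 2 by norm_num, Real.sqrt_sq two_pos.le]
    rw [e3, ← Real.rpow_natCast, ← Real.rpow_mul (by positivity)]
    congr 1
    ring
  unfold BB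
  rw [hLc]
  unfold sg
  rw [om_eq hk0, om_eq (by omega : 0 < k + m)]
  rw [hGak]
  have hX : Real.Gamma ((k : ℝ) / 2 + 1 / 2) =
      ((k - 1).factorial : ℝ) * (2 / 2 ^ k) * √Real.pi / Real.Gamma ((k : ℝ) / 2) := by
    field_simp
    field_simp at hdup
    linarith
  rw [hX]
  have hss : Real.pi ^ (k + m) = √Real.pi ^ (k + m) * √Real.pi ^ (k + m) := by
    rw [← mul_pow, Real.mul_self_sqrt hπ.le]
  rw [mul_pow 2 Real.pi (k + m), hss, pow_add √Real.pi k m, pow_add 2 k m, mul_pow, pow_succ,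
    pow_succ]
  field_simp

theorem cst {k m : ℕ} (hk : 6 ≤ k) : Pool.Agent.R117.RL.Kcl (k + m) =
    sg k ^ (2 / ((k + m : ℕ) : ℝ)) * (((k + m : ℕ) : ℝ) / (((k + m : ℕ) : ℝ) + 2) *
      BB k m ^ (-(2 / ((k + m : ℕ) : ℝ)))) := by
  have hd0 : 0 < k + m := by omega
  have hd' : (0 : ℝ) < ((k + m : ℕ) : ℝ) := by exact_mod_cast hd0
  have hω := om_pos (k + m)
  have hσ := sg_pos (d := k) (by omega)
  have hB := BB_pos (m := m) hk
  have key := BB_eq (m := m) hk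
  have hπ := Real.pi_pos
  have e1 : (2 * Real.pi) ^ 2 = ((2 * Real.pi) ^ (k + m)) ^ (2 / ((k + m : ℕ) : ℝ)) := by
    rw [← Real.rpow_natCast (2 * Real.pi) (k + m), ← Real.rpow_mul (by positivity)]
    have h1 : ((k + m : ℕ) : ℝ) * (2 / ((k + m : ℕ) : ℝ)) = ((2 : ℕ) : ℝ) := by
      field_simp
      norm_num
    rw [h1, Real.rpow_natCast]
  have e2 : (2 * Real.pi) ^ 2 / om (k + m) ^ (2 / ((k + m : ℕ) : ℝ)) =
      sg k ^ (2 / ((k + m : ℕ) : ℝ)) * BB k m ^ (-(2 / ((k + m : ℕ) : ℝ))) := by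
    rw [e1, ← Real.div_rpow (by positivity) hω.le, ← key, Real.div_rpow hσ.le hB.le,
      Real.rpow_neg hB.le, div_eq_mul_inv]
  unfold Pool.Agent.R117.RL.Kcl
  rw [e2]
  ring

end Pool.Agent.U281.CY
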