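import Pool.Agent.U281.CY.En
import Pool.Agent.U281.CY.Kin
import Pool.Agent.N537.RS.Fin

/-!
# The kinetic inequality for cylindrical shells
-/

set_option autoImplicit false

open MeasureTheory Set Filter Topology

namespace Pool.Agent.U281.CY

open Pool.Agent.N537.RS Pool.Agent.R117.RL

/-- the squared gradient of `u` at the point `(x, y)` -/
noncomputable def gradSq {k m : ℕ} (u : E k × (Fin m → ℝ) → ℂ) (p : E k × (Fin m → ℝ)) : ℝ :=
  grad2 (fun x => u (x, p.2)) p.1 +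
    ∑ i : Fin m, ‖fderiv ℝ (fun y => u (p.1, y)) p.2 (Pi.single i 1)‖ ^ 2

theorem shell_grad {κ l g m : ℕ} {P : Fin g → E (κ + 1) → ℝ} (hS : Shell l P)
    {G : ℝ × (Fin m → ℝ) → ℂ} (hG : ContDiff ℝ 1 G) {p : E (κ + 1) × (Fin m → ℝ)}
    (hp : p.1 ≠ 0) :
    ∑ j, gradSq (fun q => G (‖q.1‖, q.2) * P j q.1) p =
      Fe l ((l : ℝ) * ((l : ℝ) + ((κ + 1 : ℕ) : ℝ) - 2)) G (‖p.1‖, p.2) := by
  have hd : HasFDerivAt G (fderiv ℝ G (‖p.1‖, p.2)) (‖p.1‖, p.2) :=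
    ((hG.differentiable one_ne_zero) (‖p.1‖, p.2)).hasFDerivAt
  have h1 : HasDerivAt (fun r : ℝ => G (r, p.2)) (Gr G (‖p.1‖, p.2)) ‖p.1‖ :=
    hd.comp_hasDerivAt ‖p.1‖ ((hasDerivAt_id ‖p.1‖).prodMk (hasDerivAt_const ‖p.1‖ p.2))
  have h2 := LO.grad_any hS hp h1
  have h3 : ∀ (j : Fin g) (i : Fin m), fderiv ℝ (fun y : Fin m → ℝ => G (‖p.1‖, y) * P j p.1) p.2
      (Pi.single i 1) = Gy i G (‖p.1‖, p.2) * P j p.1 := by
    intro j i
    have h4 : HasFDerivAt (fun y : Fin m → ℝ => G (‖p.1‖, y))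
        ((fderiv ℝ G (‖p.1‖, p.2)).comp (ContinuousLinearMap.inr ℝ ℝ (Fin m → ℝ))) p.2 :=
      hd.comp p.2 (hasFDerivAt_prodMk_right ‖p.1‖ p.2)
    have h5 := h4.mul_const (P j p.1 : ℂ)
    rw [h5.fderiv]
    simp [Gy, mul_comm]
  have h6 : ∀ j : Fin g, ∑ i : Fin m, ‖Gy i G (‖p.1‖, p.2) * (P j p.1 : ℂ)‖ ^ 2 =
      P j p.1 ^ 2 * ∑ i : Fin m, ‖Gy i G (‖p.1‖, p.2)‖ ^ 2 := by
    intro j
    rw [Finset.mul_sum]
    refine Finset.sum_congr rfl fun i _ => ?_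
    rw [norm_mul, mul_pow, Complex.norm_real, Real.norm_eq_abs, sq_abs]
    ring
  unfold gradSq
  rw [Finset.sum_add_distrib]
  simp only [h3, h6]
  rw [← Finset.sum_mul, hS.square p.1]
  unfold Fe
  congr 1

theorem shell_sq {κ l g m : ℕ} {P : Fin g → E (κ + 1) → ℝ} (hS : Shell l P)
    (G : ℝ × (Fin m → ℝ) → ℂ) (p : E (κ + 1) × (Fin m → ℝ)) :
    ∑ j, ‖G (‖p.1‖, p.2) * P j p.1‖ ^ 2 = ‖p.1‖ ^ (2 * l) * ‖G (‖p.1‖, p.2)‖ ^ 2 := by
  rw [← hS.square p.1, Finset.sum_mul]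
  refine Finset.sum_congr rfl fun j _ => ?_
  rw [norm_mul, mul_pow, Complex.norm_real, Real.norm_eq_abs, sq_abs]
  ring

theorem cyl_supp {F : Type} [NormedAddCommGroup F] {κ m : ℕ}
    {f : ℝ × (Fin m → ℝ) → F} (hf : Continuous f) {K : Set (ℝ × (Fin m → ℝ))} (hK : IsCompact K)
    (h0 : ∀ p, p ∉ K → f p = 0) :
    Continuous (fun p : E (κ + 1) × (Fin m → ℝ) => f (‖p.1‖, p.2)) ∧
    HasCompactSupport (fun p : E (κ + 1) × (Fin m → ℝ) => f (‖p.1‖, p.2)) := by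
  refine ⟨hf.comp ((continuous_fst.norm).prodMk continuous_snd), ?_⟩
  obtain ⟨R, hR⟩ := hK.exists_bound_of_continuousOn continuous_fst.continuousOn
  refine HasCompactSupport.intro ((isCompact_closedBall (0 : E (κ + 1)) R).prod
    (hK.image continuous_snd)) fun p hp => h0 _ fun h => hp ⟨?_, ?_⟩
  · have h1 := hR _ h
    simp only [Real.norm_eq_abs, abs_norm] at h1
    simpa using h1
  · exact ⟨(‖p.1‖, p.2), h, rfl⟩

/-- the systems -/
structure Cyl {k m : ℕ} (Λ : Finset ℕ) (g N : ℕ → ℕ) (P : ∀ l, Fin (g l) → E k → ℝ)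
    (u : ∀ l, Fin (N l) → Fin (g l) → E k × (Fin m → ℝ) → ℂ) : Prop where
  shell : ∀ l ∈ Λ, Shell l (P l)
  form : ∀ l ∈ Λ, ∀ n, ∃ G : ℝ × (Fin m → ℝ) → ℂ, ContDiff ℝ 1 G ∧ HasCompactSupport G ∧
    (∀ p ∈ tsupport G, 0 < p.1) ∧ ∀ j p, u l n j p = G (‖p.1‖, p.2) * P l j p.1
  orthonormal : ∀ l ∈ Λ, ∀ n n' j j', ∫ p, star (u l n j p) * u l n' j' p =
    if n = n' ∧ j = j' then (1 : ℂ) else 0

theorem orth_one {κ l g m : ℕ} {P : Fin g → E (κ + 1) → ℝ} (hS : Shell l P)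
    {Ga Gb : ℝ × (Fin m → ℝ) → ℂ} (ha : ContDiff ℝ 1 Ga) (hac : HasCompactSupport Ga)
    (ha0 : ∀ p ∈ tsupport Ga, 0 < p.1) (hb : ContDiff ℝ 1 Gb) {c : ℂ}
    (ho : ∀ j, ∫ p : E (κ + 1) × (Fin m → ℝ), star (Ga (‖p.1‖, p.2) * P j p.1) *
      (Gb (‖p.1‖, p.2) * P j p.1) = c) {s : ℝ} (hs : s = sg (κ + 1) / g) (hg : 0 < g) :
    ∫ z : Fin (m + 1) → ℝ, (Real.exp (2 * z 0) : ℂ) *
      (star (Ph s ((l : ℝ) + ((κ : ℝ) - 1) / 2) Ga z) *
        Ph s ((l : ℝ) + ((κ : ℝ) - 1) / 2) Gb z) = c := by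
  have hsg := sg_pos (Nat.succ_pos κ)
  have hg' : (0 : ℝ) < g := by exact_mod_cast hg
  have hs0 : 0 < s := by rw [hs]; positivity
  set f : ℝ × (Fin m → ℝ) → ℂ := fun p => ((p.1 ^ (2 * l) : ℝ) : ℂ) * (star (Ga p) * Gb p) with hf
  have hfc : Continuous f := by
    refine Continuous.mul (Complex.continuous_ofReal.comp (continuous_fst.pow _)) ?_
    exact ha.continuous.star.mul hb.continuous
  have hf0 : ∀ p, p ∉ tsupport Ga → f p = 0 := by
    intro p hp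
    have h1 : Ga p = 0 := image_eq_zero_of_notMem_tsupport hp
    rw [hf]
    simp [h1]
  obtain ⟨-, -, h3⟩ := cyl_int (κ := κ) hfc hac ha0 hf0
  have h4 : ∫ p : E (κ + 1) × (Fin m → ℝ), f (‖p.1‖, p.2) = (g : ℂ) * c := by
    have e1 : ∀ p : E (κ + 1) × (Fin m → ℝ), f (‖p.1‖, p.2) =
        ∑ j, star (Ga (‖p.1‖, p.2) * P j p.1) * (Gb (‖p.1‖, p.2) * P j p.1) := by
      intro p
      have e2 : ∀ j, star (Ga (‖p.1‖, p.2) * (P j p.1 : ℂ)) * (Gb (‖p.1‖, p.2) * P j p.1) =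
          ((P j p.1 ^ 2 : ℝ) : ℂ) * (star (Ga (‖p.1‖, p.2)) * Gb (‖p.1‖, p.2)) := by
        intro j
        have h5 : star ((P j p.1 : ℝ) : ℂ) = (P j p.1 : ℂ) := Complex.conj_ofReal _
        rw [star_mul', h5]
        push_cast
        ring
      rw [Finset.sum_congr rfl fun j _ => e2 j, ← Finset.sum_mul, ← Complex.ofReal_sum,
        hS.square p.1]
    have hi : ∀ j, Integrable fun p : E (κ + 1) × (Fin m → ℝ) =>
        star (Ga (‖p.1‖, p.2) * P j p.1) * (Gb (‖p.1‖, p.2) * P j p.1) := by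
      intro j
      have hPc : Continuous fun p : E (κ + 1) × (Fin m → ℝ) => (P j p.1 : ℂ) :=
        Complex.continuous_ofReal.comp ((hS.smooth j).continuous.comp continuous_fst)
      obtain ⟨h6, h7⟩ := cyl_supp (κ := κ) ha.continuous hac
        (fun p hp => image_eq_zero_of_notMem_tsupport hp)
      have h8 : Continuous fun p : E (κ + 1) × (Fin m → ℝ) => Gb (‖p.1‖, p.2) :=
        hb.continuous.comp ((continuous_fst.norm).prodMk continuous_snd)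
      refine Continuous.integrable_of_hasCompactSupport ?_ ?_
      · exact (h6.mul hPc).star.mul (h8.mul hPc)
      · refine HasCompactSupport.intro h7 fun p hp => ?_
        have h9 : Ga (‖p.1‖, p.2) = 0 := image_eq_zero_of_notMem_tsupport
          (f := fun p : E (κ + 1) × (Fin m → ℝ) => Ga (‖p.1‖, p.2)) hp
        simp [h9]
    simp_rw [e1]
    rw [integral_finsetSum _ fun j _ => hi j, Finset.sum_congr rfl fun j _ => ho j]
    simp
  rw [h4] at h3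
  have h5 : ∀ z : Fin (m + 1) → ℝ, (Real.exp (2 * z 0) : ℂ) *
      (star (Ph s ((l : ℝ) + ((κ : ℝ) - 1) / 2) Ga z) *
        Ph s ((l : ℝ) + ((κ : ℝ) - 1) / 2) Gb z) =
      (s : ℂ) * (Real.exp (((κ : ℝ) + 1) * z 0) • f (Th z)) := by
    intro z
    unfold Ph
    have h6 : star (((√s * Real.exp (((l : ℝ) + ((κ : ℝ) - 1) / 2) * z 0) : ℝ) : ℂ)) =
        ((√s * Real.exp (((l : ℝ) + ((κ : ℝ) - 1) / 2) * z 0) : ℝ) : ℂ) := Complex.conj_ofReal _
    have h7 : Real.exp (2 * z 0) * ((√s * Real.exp (((l : ℝ) + ((κ : ℝ) - 1) / 2) * z 0)) *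
        (√s * Real.exp (((l : ℝ) + ((κ : ℝ) - 1) / 2) * z 0))) =
        s * (Real.exp (((κ : ℝ) + 1) * z 0) * (Th z).1 ^ (2 * l)) := by
      have h8 : √s * √s = s := Real.mul_self_sqrt hs0.le
      have h9 : (Th z).1 ^ (2 * l) = Real.exp (((2 * l : ℕ) : ℝ) * z 0) :=
        (Real.exp_nat_mul _ _).symm
      rw [h9, ← Real.exp_add]
      calc Real.exp (2 * z 0) * ((√s * Real.exp (((l : ℝ) + ((κ : ℝ) - 1) / 2) * z 0)) *
            (√s * Real.exp (((l : ℝ) + ((κ : ℝ) - 1) / 2) * z 0))) =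
          (√s * √s) * (Real.exp (2 * z 0) * (Real.exp (((l : ℝ) + ((κ : ℝ) - 1) / 2) * z 0) *
            Real.exp (((l : ℝ) + ((κ : ℝ) - 1) / 2) * z 0))) := by ring
        _ = _ := by
            rw [h8, ← Real.exp_add, ← Real.exp_add]
            congr 2
            push_cast
            ring
    have h10 := congrArg (fun x : ℝ => (x : ℂ)) h7
    rw [star_mul', h6, hf, Complex.real_smul]
    calc _ = ((Real.exp (2 * z 0) *
          ((√s * Real.exp (((l : ℝ) + ((κ : ℝ) - 1) / 2) * z 0)) *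
          (√s * Real.exp (((l : ℝ) + ((κ : ℝ) - 1) / 2) * z 0))) : ℝ) : ℂ) *
          (star (Ga (Th z)) * Gb (Th z)) := by
          push_cast
          ring
      _ = _ := by
          rw [h10]
          push_cast
          ring
  simp_rw [h5]
  rw [integral_const_mul]
  have hsgc : ((sg (κ + 1) : ℝ) : ℂ) ≠ 0 := by exact_mod_cast hsg.ne'
  have hgc : (g : ℂ) ≠ 0 := by exact_mod_cast hg.ne'
  rw [Complex.real_smul] at h3
  have h6 : ∫ z : Fin (m + 1) → ℝ, Real.exp (((κ : ℝ) + 1) * z 0) • f (Th z) =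
      (g : ℂ) * c / ((sg (κ + 1) : ℝ) : ℂ) := by
    rw [h3]
    field_simp
  rw [h6, hs]
  push_cast
  field_simp

end Pool.Agent.U281.CY
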