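import Pool.Agent.U281.CY.Fin

/-!
# The kinetic inequality for cylindrical shells
-/

set_option autoImplicit false

open MeasureTheory Set Filter Topology

namespace Pool.Agent.U281.CY

open Pool.Agent.N537.RS Pool.Agent.R117.RL

theorem final {k m : ℕ} (hk : 6 ≤ k) {Λ : Finset ℕ} {g N : ℕ → ℕ}
    (hg : ∀ l ∈ Λ, g l ≤ hdim k l) {P : ∀ l, Fin (g l) → E k → ℝ}
    {u : ∀ l, Fin (N l) → Fin (g l) → E k × (Fin m → ℝ) → ℂ} (h : Cyl Λ g N P u) :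
    Integrable (fun p => (∑ l ∈ Λ, ∑ n, ∑ j, ‖u l n j p‖ ^ 2) ^
      (1 + 2 / ((k + m : ℕ) : ℝ))) ∧
    Integrable (fun p => ∑ l ∈ Λ, ∑ n, ∑ j, gradSq (u l n j) p) ∧
    Kcl (k + m) * (∫ p, (∑ l ∈ Λ, ∑ n, ∑ j, ‖u l n j p‖ ^ 2) ^ (1 + 2 / ((k + m : ℕ) : ℝ))) ≤
      ∫ p, ∑ l ∈ Λ, ∑ n, ∑ j, gradSq (u l n j) p := by
  have hcst := cst (m := m) hk
  obtain ⟨κ, rfl⟩ : ∃ κ, k = κ + 1 := ⟨k - 1, by omega⟩
  have hκ : (5 : ℝ) ≤ κ := by
    have : 5 ≤ κ := by omega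
    exact_mod_cast this
  have hm0 : (0 : ℝ) ≤ (m : ℝ) := Nat.cast_nonneg m
  have hkc : ((κ + 1 : ℕ) : ℝ) = (κ : ℝ) + 1 := by push_cast; ring
  have hdc : ((κ + 1 + m : ℕ) : ℝ) = (κ : ℝ) + 1 + m := by push_cast; ring
  have hsg := sg_pos (Nat.succ_pos κ)
  have hex : ∀ (l : ℕ) (n : Fin (N l)), ∃ G : ℝ × (Fin m → ℝ) → ℂ, l ∈ Λ →
      (ContDiff ℝ 1 G ∧ HasCompactSupport G ∧ (∀ p ∈ tsupport G, 0 < p.1) ∧
        ∀ j p, u l n j p = G (‖p.1‖, p.2) * P l j p.1) := by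
    intro l n
    by_cases hl : l ∈ Λ
    · obtain ⟨G, hG⟩ := h.form l hl n
      exact ⟨G, fun _ => hG⟩
    · exact ⟨0, fun h => absurd h hl⟩
  choose G hG using hex
  have hgpos : ∀ l ∈ Λ, (0 : ℝ) < g l := fun l hl => by
    exact_mod_cast FI.shell_card (Nat.succ_pos κ) (h.shell l hl)
  set φ : ∀ l, Fin (N l) → (Fin (m + 1) → ℝ) → ℂ := fun l n =>
    Ph (sg (κ + 1) / g l) ((l : ℝ) + ((κ : ℝ) - 1) / 2) (G l n) with hφ
  have hFam : Fam Λ N φ := by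
    refine ⟨fun l hl n => Ph_smooth _ _ (hG l n hl).1,
      fun l hl n => Ph_supp _ _ (hG l n hl).2.1 (hG l n hl).2.2.1, fun l hl a b => ?_⟩
    refine orth_one (h.shell l hl) (hG l a hl).1 (hG l a hl).2.1 (hG l a hl).2.2.1 (hG l b hl).1
      (fun j => ?_) rfl (FI.shell_card (Nat.succ_pos κ) (h.shell l hl))
    have h1 := h.orthonormal l hl a b j j
    simp only [(hG l a hl).2.2.2, (hG l b hl).2.2.2] at h1
    rw [h1]
    by_cases hab : a = b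
    · rw [if_pos hab, if_pos (by simp [hab])]
    · rw [if_neg hab, if_neg fun h => hab h.1]
  have hkin := kin hk hg hFam
  set d : ℝ := ((κ + 1 + m : ℕ) : ℝ) with hd
  have hd0 : 0 < d := by rw [hdc]; linarith
  set q : ℝ := 1 + 2 / d with hq
  have hq0 : 0 < q := by rw [hq]; positivity
  -- the density
  set ρ : ℝ × (Fin m → ℝ) → ℝ := fun p => ∑ l ∈ Λ, ∑ n, p.1 ^ (2 * l) * ‖G l n p‖ ^ 2 with hρ
  have hρc : Continuous ρ := continuous_finsetSum _ fun l hl => continuous_finsetSum _ fun n _ =>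
    (continuous_fst.pow _).mul ((hG l n hl).1.continuous.norm.pow 2)
  have hρ0 : ∀ p, 0 ≤ ρ p := fun p => Finset.sum_nonneg fun l _ => Finset.sum_nonneg fun n _ =>
    mul_nonneg (by rw [pow_mul]; positivity) (sq_nonneg _)
  set K : Set (ℝ × (Fin m → ℝ)) := ⋃ l : {x // x ∈ Λ}, ⋃ n, tsupport (G l.1 n) with hK
  have hKc : IsCompact K := isCompact_iUnion fun l => isCompact_iUnion fun n =>
    (hG l.1 n l.2).2.1
  have hK0 : ∀ p ∈ K, 0 < p.1 := by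
    intro p hp
    obtain ⟨l, hl⟩ := Set.mem_iUnion.1 hp
    obtain ⟨n, hn⟩ := Set.mem_iUnion.1 hl
    exact (hG l.1 n l.2).2.2.1 p hn
  have hKz : ∀ p, p ∉ K → ∀ l ∈ Λ, ∀ n, p ∉ tsupport (G l n) := fun p hp l hl n h =>
    hp (Set.mem_iUnion.2 ⟨⟨l, hl⟩, Set.mem_iUnion.2 ⟨n, h⟩⟩)
  have hρz : ∀ p, p ∉ K → ρ p = 0 := by
    intro p hp
    refine Finset.sum_eq_zero fun l hl => Finset.sum_eq_zero fun n _ => ?_
    have h1 : G l n p = 0 := image_eq_zero_of_notMem_tsupport (hKz p hp l hl n)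
    simp [h1]
  obtain ⟨i1, -, e1⟩ := cyl_int (κ := κ) (f := fun p => ρ p ^ q)
    (hρc.rpow_const fun _ => Or.inr hq0.le) hKc hK0
    (fun p hp => by show ρ p ^ q = 0; rw [hρz p hp, Real.zero_rpow hq0.ne'])
  have hdens : ∀ p : E (κ + 1) × (Fin m → ℝ), ∑ l ∈ Λ, ∑ n, ∑ j, ‖u l n j p‖ ^ 2 =
      ρ (‖p.1‖, p.2) := by
    intro p
    refine Finset.sum_congr rfl fun l hl => Finset.sum_congr rfl fun n _ => ?_
    rw [← shell_sq (h.shell l hl) (G l n) p]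
    refine Finset.sum_congr rfl fun j _ => ?_
    rw [(hG l n hl).2.2.2 j p]
  -- the energy
  set lam : ℕ → ℝ := fun l => (l : ℝ) * ((l : ℝ) + ((κ + 1 : ℕ) : ℝ) - 2) with hlam
  have hFe : ∀ l ∈ Λ, ∀ n,
      Integrable (fun p : E (κ + 1) × (Fin m → ℝ) => Fe l (lam l) (G l n) (‖p.1‖, p.2)) ∧
      ∫ p : E (κ + 1) × (Fin m → ℝ), Fe l (lam l) (G l n) (‖p.1‖, p.2) =
      sg (κ + 1) * ∫ z : Fin (m + 1) → ℝ, Real.exp (((κ : ℝ) + 1) * z 0) *
        Fe l (lam l) (G l n) (Th z) := by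
    intro l hl n
    obtain ⟨i2, -, e2⟩ := cyl_int (κ := κ) (f := Fe l (lam l) (G l n))
      (Fe_cont l (lam l) (hG l n hl).1 (hG l n hl).2.2.1) (hG l n hl).2.1 (hG l n hl).2.2.1
      (fun p hp => Fe_zero l (lam l) hp)
    exact ⟨i2, e2⟩
  have hne : ∀ᵐ p : E (κ + 1) × (Fin m → ℝ), p.1 ≠ 0 := by
    have h1 : ∀ᵐ x : E (κ + 1), x ≠ 0 := by
      rw [ae_iff]
      simp
    exact (Measure.quasiMeasurePreserving_fst (μ := (volume : Measure (E (κ + 1))))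
      (ν := (volume : Measure (Fin m → ℝ)))).ae h1
  have hgrad : (fun p : E (κ + 1) × (Fin m → ℝ) => ∑ l ∈ Λ, ∑ n, ∑ j, gradSq (u l n j) p)
      =ᵐ[volume] fun p => ∑ l ∈ Λ, ∑ n, Fe l (lam l) (G l n) (‖p.1‖, p.2) := by
    filter_upwards [hne] with p hp
    refine Finset.sum_congr rfl fun l hl => Finset.sum_congr rfl fun n _ => ?_
    rw [← shell_grad (h.shell l hl) (hG l n hl).1 hp]
    refine Finset.sum_congr rfl fun j _ => ?_
    have h1 : u l n j = fun q => G l n (‖q.1‖, q.2) * P l j q.1 :=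
      funext fun q => (hG l n hl).2.2.2 j q
    rw [h1]
  have hiF : Integrable fun p : E (κ + 1) × (Fin m → ℝ) =>
      ∑ l ∈ Λ, ∑ n, Fe l (lam l) (G l n) (‖p.1‖, p.2) :=
    integrable_finsetSum _ fun l hl => integrable_finsetSum _ fun n _ => (hFe l hl n).1
  have hiG : Integrable fun p : E (κ + 1) × (Fin m → ℝ) =>
      ∑ l ∈ Λ, ∑ n, ∑ j, gradSq (u l n j) p := hiF.congr hgrad.symm
  have hden2 : (fun p : E (κ + 1) × (Fin m → ℝ) =>
      (∑ l ∈ Λ, ∑ n, ∑ j, ‖u l n j p‖ ^ 2) ^ q) = fun p => ρ (‖p.1‖, p.2) ^ q := by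
    funext p
    rw [hdens p]
  refine ⟨by rw [hden2]; exact i1, hiG, ?_⟩
  rw [hden2, integral_congr_ae hgrad]
  -- the right side
  have hR : (∑ l ∈ Λ, (g l : ℝ) * ∑ n, ((∫ z, KE (φ l n) z) +
      ((l : ℝ) + (((κ + 1 : ℕ) : ℝ) - 2) / 2) ^ 2 * ∫ z, ‖φ l n z‖ ^ 2)) =
      ∫ p : E (κ + 1) × (Fin m → ℝ), ∑ l ∈ Λ, ∑ n, Fe l (lam l) (G l n) (‖p.1‖, p.2) := by
    rw [integral_finsetSum _ fun l hl => integrable_finsetSum _ fun n _ => (hFe l hl n).1]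
    refine Finset.sum_congr rfl fun l hl => ?_
    rw [integral_finsetSum _ fun n _ => (hFe l hl n).1, Finset.mul_sum]
    refine Finset.sum_congr rfl fun n _ => ?_
    have hs0 : 0 < sg (κ + 1) / g l := by
      have := hgpos l hl
      positivity
    have e2 := en_int (κ := κ) (l := l) (s := sg (κ + 1) / g l) (lam := lam l) hs0
      (hG l n hl).1 (hG l n hl).2.1 (hG l n hl).2.2.1
    have e3 : ((l : ℝ) + (((κ + 1 : ℕ) : ℝ) - 2) / 2) ^ 2 =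
        (((κ : ℝ) - 1) / 2) ^ 2 + lam l := by
      rw [hlam]
      simp only
      rw [hkc]
      ring
    rw [e3, (hFe l hl n).2]
    have e4 : (∫ z, KE (φ l n) z) + ((((κ : ℝ) - 1) / 2) ^ 2 + lam l) * ∫ z, ‖φ l n z‖ ^ 2 =
        ∫ z : Fin (m + 1) → ℝ, Real.exp (((κ : ℝ) + 1) * z 0) *
          (sg (κ + 1) / g l * Fe l (lam l) (G l n) (Th z)) := e2.symm
    rw [e4]
    have e5 : ∀ z : Fin (m + 1) → ℝ, Real.exp (((κ : ℝ) + 1) * z 0) *
          (sg (κ + 1) / g l * Fe l (lam l) (G l n) (Th z)) = sg (κ + 1) / g l *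
          (Real.exp (((κ : ℝ) + 1) * z 0) * Fe l (lam l) (G l n) (Th z)) := by
      intro z
      ring
    simp_rw [e5]
    rw [integral_const_mul]
    have := (hgpos l hl).ne'
    field_simp
  rw [hR] at hkin
  -- the left side
  have hL : ∀ z : Fin (m + 1) → ℝ,
      Real.exp (-((((κ + 1 : ℕ) : ℝ) - 2) * z 0)) * Dn Λ g N φ z = sg (κ + 1) * ρ (Th z) := by
    intro z
    unfold Dn
    rw [hρ, Finset.mul_sum, Finset.mul_sum]
    refine Finset.sum_congr rfl fun l hl => ?_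
    rw [Finset.mul_sum, Finset.mul_sum, Finset.mul_sum]
    refine Finset.sum_congr rfl fun n _ => ?_
    have hg0 := hgpos l hl
    have hs0 : 0 ≤ sg (κ + 1) / g l := by positivity
    have e2 : ‖φ l n z‖ ^ 2 = sg (κ + 1) / g l *
        (Real.exp ((((κ + 1 : ℕ) : ℝ) - 2) * z 0) * (Th z).1 ^ (2 * l)) * ‖G l n (Th z)‖ ^ 2 := by
      rw [hφ]
      simp only
      unfold Ph
      rw [norm_mul, mul_pow, Complex.norm_real, Real.norm_eq_abs, sq_abs, mul_pow,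
        Real.sq_sqrt hs0]
      have h9 : (Th z).1 ^ (2 * l) = Real.exp (((2 * l : ℕ) : ℝ) * z 0) :=
        (Real.exp_nat_mul _ _).symm
      rw [h9, ← Real.exp_nat_mul, ← Real.exp_add]
      congr 3
      rw [hkc]
      push_cast
      ring
    have e3 : Real.exp (-((((κ + 1 : ℕ) : ℝ) - 2) * z 0)) *
        Real.exp ((((κ + 1 : ℕ) : ℝ) - 2) * z 0) = 1 := by
      rw [← Real.exp_add, neg_add_cancel, Real.exp_zero]
    rw [e2]
    calc Real.exp (-((((κ + 1 : ℕ) : ℝ) - 2) * z 0)) * ((g l : ℝ) * (sg (κ + 1) / g l *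
          (Real.exp ((((κ + 1 : ℕ) : ℝ) - 2) * z 0) * (Th z).1 ^ (2 * l)) *
          ‖G l n (Th z)‖ ^ 2)) =
        (Real.exp (-((((κ + 1 : ℕ) : ℝ) - 2) * z 0)) *
          Real.exp ((((κ + 1 : ℕ) : ℝ) - 2) * z 0)) * ((g l : ℝ) * (sg (κ + 1) / g l)) *
          ((Th z).1 ^ (2 * l) * ‖G l n (Th z)‖ ^ 2) := by ring
      _ = _ := by
          rw [e3]
          field_simp
  simp only [hL] at hkin
  have hpow : ∀ z : Fin (m + 1) → ℝ, Real.exp (((κ + 1 : ℕ) : ℝ) * z 0) *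
      (sg (κ + 1) * ρ (Th z)) ^ q = sg (κ + 1) ^ q *
        (Real.exp (((κ : ℝ) + 1) * z 0) * ρ (Th z) ^ q) := by
    intro z
    rw [Real.mul_rpow hsg.le (hρ0 _), hkc]
    ring
  simp only [hpow] at hkin
  rw [integral_const_mul] at hkin
  rw [e1, hcst]
  simp only [smul_eq_mul]
  refine le_trans (le_of_eq ?_) hkin
  have e6 : sg (κ + 1) ^ (2 / d) * sg (κ + 1) = sg (κ + 1) ^ q := by
    rw [hq, Real.rpow_add hsg, Real.rpow_one]
    ring
  rw [← e6]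
  ring

end Pool.Agent.U281.CY
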