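import Pool.Agent.N537.RS.Log
import Pool.Agent.U281.CY.Du2

/-!
# Cylindrical coordinates
-/

set_option autoImplicit false

open MeasureTheory Set Filter Topology

namespace Pool.Agent.U281.CY

open Pool.Agent.N537.RS Pool.Agent.R117.RL

theorem cont_of_supp {X Y : Type} [TopologicalSpace X] [TopologicalSpace Y] [Zero Y] {F : X → Y}
    {K : Set X} (hK : IsClosed K) (h0 : ∀ x, x ∉ K → F x = 0) (hc : ∀ x ∈ K, ContinuousAt F x) :
    Continuous F := by
  rw [continuous_iff_continuousAt]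
  intro x
  by_cases hx : x ∈ K
  · exact hc x hx
  · have h1 : F =ᶠ[𝓝 x] fun _ => 0 := by
      filter_upwards [hK.isOpen_compl.mem_nhds hx] with y hy using h0 y hy
    exact continuousAt_const.congr h1.symm

/-- the logarithmic change of variables -/
noncomputable def Th {m : ℕ} (z : Fin (m + 1) → ℝ) : ℝ × (Fin m → ℝ) :=
  (Real.exp (z 0), fun i => z i.succ)

theorem cyl_int {F : Type} [NormedAddCommGroup F] [NormedSpace ℝ F] {κ m : ℕ}
    {f : ℝ × (Fin m → ℝ) → F} (hf : Continuous f) {K : Set (ℝ × (Fin m → ℝ))} (hK : IsCompact K)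
    (hK0 : ∀ p ∈ K, 0 < p.1) (h0 : ∀ p, p ∉ K → f p = 0) :
    Integrable (fun p : E (κ + 1) × (Fin m → ℝ) => f (‖p.1‖, p.2)) ∧
    Integrable (fun z : Fin (m + 1) → ℝ => Real.exp (((κ : ℝ) + 1) * z 0) • f (Th z)) ∧
    ∫ p : E (κ + 1) × (Fin m → ℝ), f (‖p.1‖, p.2) =
      sg (κ + 1) • ∫ z : Fin (m + 1) → ℝ, Real.exp (((κ : ℝ) + 1) * z 0) • f (Th z) := by
  have i1 : Integrable (fun p : E (κ + 1) × (Fin m → ℝ) => f (‖p.1‖, p.2)) := by
    refine Continuous.integrable_of_hasCompactSupport ?_ ?_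
    · exact hf.comp ((continuous_fst.norm).prodMk continuous_snd)
    · obtain ⟨R, hR⟩ := hK.exists_bound_of_continuousOn continuous_fst.continuousOn
      refine HasCompactSupport.intro ((isCompact_closedBall (0 : E (κ + 1)) R).prod
        (hK.image continuous_snd)) fun p hp => h0 _ fun h => hp ⟨?_, ?_⟩
      · have h1 := hR _ h
        simp only [Real.norm_eq_abs, abs_norm] at h1
        simpa using h1
      · exact ⟨(‖p.1‖, p.2), h, rfl⟩
  have i2 : Integrable (fun q : ℝ × (Fin m → ℝ) =>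
      Real.exp (((κ : ℝ) + 1) * q.1) • f (Real.exp q.1, q.2)) := by
    have hc : Continuous (fun q : ℝ × (Fin m → ℝ) =>
        Real.exp (((κ : ℝ) + 1) * q.1) • f (Real.exp q.1, q.2)) := by
      refine Continuous.smul (by fun_prop) (hf.comp ?_)
      exact (Real.continuous_exp.comp continuous_fst).prodMk continuous_snd
    refine hc.integrable_of_hasCompactSupport ?_
    have hK2 : IsCompact ((fun p : ℝ × (Fin m → ℝ) => (Real.log p.1, p.2)) '' K) := by
      refine hK.image_of_continuousOn ?_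
      refine ContinuousOn.prodMk ?_ continuous_snd.continuousOn
      exact Real.continuousOn_log.comp continuous_fst.continuousOn fun p hp => (hK0 p hp).ne'
    refine HasCompactSupport.intro hK2 fun q hq => ?_
    have h1 : f (Real.exp q.1, q.2) = 0 := by
      refine h0 _ fun h => hq ⟨(Real.exp q.1, q.2), h, ?_⟩
      simp
    show Real.exp (((κ : ℝ) + 1) * q.1) • f (Real.exp q.1, q.2) = 0
    rw [h1, smul_zero]
  have hmp := volume_preserving_piFinSuccAbove (fun _ : Fin (m + 1) => ℝ) 0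
  have i3 : Integrable (fun z : Fin (m + 1) → ℝ =>
      Real.exp (((κ : ℝ) + 1) * z 0) • f (Th z)) :=
    (hmp.integrable_comp_emb (MeasurableEquiv.measurableEmbedding _)).2 i2
  refine ⟨i1, i3, ?_⟩
  have e1 : ∫ z : Fin (m + 1) → ℝ, Real.exp (((κ : ℝ) + 1) * z 0) • f (Th z) =
      ∫ q : ℝ × (Fin m → ℝ), Real.exp (((κ : ℝ) + 1) * q.1) • f (Real.exp q.1, q.2) :=
    hmp.integral_comp' (fun q : ℝ × (Fin m → ℝ) =>
      Real.exp (((κ : ℝ) + 1) * q.1) • f (Real.exp q.1, q.2))
  rw [e1]
  rw [Measure.volume_eq_prod] at i1 i2 ⊢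
  rw [Measure.volume_eq_prod, integral_prod_symm _ i1, integral_prod_symm _ i2, ← integral_smul]
  refine integral_congr_ae (Eventually.of_forall fun y => ?_)
  exact LO.log_integral (k := κ) (fun r => f (r, y))

end Pool.Agent.U281.CY
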