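import Pool.Agent.U281.CY.Geo
import Pool.Agent.U281.CY.Du2

/-!
# The functions in the logarithmic variables
-/

set_option autoImplicit false

open MeasureTheory Set Filter Topology

namespace Pool.Agent.U281.CY

open Pool.Agent.N537.RS Pool.Agent.R117.RL LTd

variable {m : ℕ}

/-- `√s e^{b t} G(e^t, y)` -/
noncomputable def Ph (s b : ℝ) (G : ℝ × (Fin m → ℝ) → ℂ) (z : Fin (m + 1) → ℝ) : ℂ :=
  ((√s * Real.exp (b * z 0) : ℝ) : ℂ) * G (Th z)

/-- the derivative in the first variable -/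
noncomputable def Gr (G : ℝ × (Fin m → ℝ) → ℂ) (p : ℝ × (Fin m → ℝ)) : ℂ :=
  fderiv ℝ G p (1, 0)

/-- the derivative in the other variables -/
noncomputable def Gy (i : Fin m) (G : ℝ × (Fin m → ℝ) → ℂ) (p : ℝ × (Fin m → ℝ)) : ℂ :=
  fderiv ℝ G p (0, Pi.single i 1)

theorem Th_deriv (z : Fin (m + 1) → ℝ) : HasFDerivAt (Th (m := m))
    (ContinuousLinearMap.prod (Real.exp (z 0) • ContinuousLinearMap.proj (R := ℝ)
      (φ := fun _ : Fin (m + 1) => ℝ) 0)
      (ContinuousLinearMap.pi fun i : Fin m => ContinuousLinearMap.proj (R := ℝ)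
        (φ := fun _ : Fin (m + 1) => ℝ) i.succ)) z := by
  have h1 : HasFDerivAt (fun z : Fin (m + 1) → ℝ => Real.exp (z 0))
      (Real.exp (z 0) • ContinuousLinearMap.proj (R := ℝ)
        (φ := fun _ : Fin (m + 1) => ℝ) 0) z :=
    (ContinuousLinearMap.proj (R := ℝ) (φ := fun _ : Fin (m + 1) => ℝ) 0).hasFDerivAt.exp
  have h2 : HasFDerivAt (fun z : Fin (m + 1) → ℝ => fun i : Fin m => z i.succ)
      (ContinuousLinearMap.pi fun i : Fin m => ContinuousLinearMap.proj (R := ℝ)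
        (φ := fun _ : Fin (m + 1) => ℝ) i.succ) z :=
    (ContinuousLinearMap.pi fun i : Fin m => ContinuousLinearMap.proj (R := ℝ)
        (φ := fun _ : Fin (m + 1) => ℝ) i.succ).hasFDerivAt
  exact h1.prodMk h2

theorem Th_smooth : ContDiff ℝ 1 (Th (m := m)) := by
  unfold Th
  refine ContDiff.prodMk (Real.contDiff_exp.comp (contDiff_apply ℝ ℝ 0)) ?_
  exact contDiff_pi.2 fun i => contDiff_apply ℝ ℝ i.succ

theorem Ph_smooth (s b : ℝ) {G : ℝ × (Fin m → ℝ) → ℂ} (hG : ContDiff ℝ 1 G) :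
    ContDiff ℝ 1 (Ph s b G) := by
  unfold Ph
  refine ContDiff.mul ?_ (hG.comp Th_smooth)
  refine Complex.ofRealCLM.contDiff.comp ?_
  exact contDiff_const.mul (Real.contDiff_exp.comp (contDiff_const.mul (contDiff_apply ℝ ℝ 0)))

theorem Th_cpt {K : Set (ℝ × (Fin m → ℝ))} (hK : IsCompact K) (hK0 : ∀ p ∈ K, 0 < p.1) :
    ∃ K' : Set (Fin (m + 1) → ℝ), IsCompact K' ∧ ∀ z, z ∉ K' → Th z ∉ K := by
  refine ⟨(fun p : ℝ × (Fin m → ℝ) => (Fin.cons (Real.log p.1) p.2 : Fin (m + 1) → ℝ)) '' K,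
    ?_, ?_⟩
  · refine hK.image_of_continuousOn ?_
    refine ContinuousOn.finCons ?_ continuous_snd.continuousOn
    exact Real.continuousOn_log.comp continuous_fst.continuousOn fun p hp => (hK0 p hp).ne'
  · intro z hz h
    refine hz ⟨Th z, h, ?_⟩
    unfold Th
    simp only [Real.log_exp]
    funext i
    refine Fin.cases ?_ (fun j => ?_) i
    · rfl
    · rfl

theorem Ph_supp (s b : ℝ) {G : ℝ × (Fin m → ℝ) → ℂ} (hG : HasCompactSupport G)
    (h0 : ∀ p ∈ tsupport G, 0 < p.1) : HasCompactSupport (Ph s b G) := by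
  obtain ⟨K', hK', hz⟩ := Th_cpt hG h0
  refine HasCompactSupport.intro hK' fun z hz' => ?_
  have h1 : G (Th z) = 0 := image_eq_zero_of_notMem_tsupport (hz z hz')
  unfold Ph
  rw [h1, mul_zero]

theorem Ph_deriv (s b : ℝ) {G : ℝ × (Fin m → ℝ) → ℂ} (hG : ContDiff ℝ 1 G)
    (z v : Fin (m + 1) → ℝ) :
    fderiv ℝ (Ph s b G) z v = ((√s * Real.exp (b * z 0) : ℝ) : ℂ) *
      (fderiv ℝ G (Th z) (Real.exp (z 0) * v 0, fun i => v i.succ) +
        (b * v 0 : ℝ) * G (Th z)) := by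
  have h1 : HasFDerivAt (fun z : Fin (m + 1) → ℝ => √s * Real.exp (b * z 0))
      (√s • (Real.exp (b * z 0) • (b • ContinuousLinearMap.proj (R := ℝ)
        (φ := fun _ : Fin (m + 1) => ℝ) 0))) z := by
    have h2 := ((ContinuousLinearMap.proj (R := ℝ)
        (φ := fun _ : Fin (m + 1) => ℝ) 0).hasFDerivAt (x := z)).const_mul b
    exact h2.exp.const_mul √s
  have h2 := (Complex.ofRealCLM.hasFDerivAt (x := √s * Real.exp (b * z 0))).comp z h1
  have h3 := (((hG.differentiable one_ne_zero) (Th z)).hasFDerivAt).comp z (Th_deriv z)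
  have h4 := h2.mul h3
  have h5 : fderiv ℝ (Ph s b G) z = _ := h4.fderiv
  rw [h5]
  simp only [add_apply, smul_apply, ContinuousLinearMap.comp_apply, smul_eq_mul,
    Complex.ofRealCLM_apply, Function.comp_apply, ContinuousLinearMap.prod_apply,
    ContinuousLinearMap.proj_apply, ContinuousLinearMap.coe_pi', ContinuousLinearMap.smul_apply]
  push_cast
  ring

theorem cd0 (s b : ℝ) {G : ℝ × (Fin m → ℝ) → ℂ} (hG : ContDiff ℝ 1 G) (z : Fin (m + 1) → ℝ) :
    cd 0 (Ph s b G) z = ((√s * Real.exp (b * z 0) : ℝ) : ℂ) *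
      ((Real.exp (z 0) : ℝ) * Gr G (Th z) + (b : ℝ) * G (Th z)) := by
  unfold cd Gr
  rw [Ph_deriv s b hG]
  have e1 : (Real.exp (z 0) * (Pi.single (0 : Fin (m + 1)) (1 : ℝ) : Fin (m + 1) → ℝ) 0,
      fun i : Fin m => (Pi.single (0 : Fin (m + 1)) (1 : ℝ) : Fin (m + 1) → ℝ) i.succ) =
      (Real.exp (z 0)) • ((1 : ℝ), (0 : Fin m → ℝ)) := by
    ext
    · simp
    · simp [Pi.single_apply, Fin.succ_ne_zero]
  rw [e1, map_smul]
  simp

theorem cdi (s b : ℝ) {G : ℝ × (Fin m → ℝ) → ℂ} (hG : ContDiff ℝ 1 G) (i : Fin m)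
    (z : Fin (m + 1) → ℝ) :
    cd i.succ (Ph s b G) z = ((√s * Real.exp (b * z 0) : ℝ) : ℂ) * Gy i G (Th z) := by
  unfold cd Gy
  rw [Ph_deriv s b hG]
  have e1 : (Real.exp (z 0) * (Pi.single (i.succ : Fin (m + 1)) (1 : ℝ) : Fin (m + 1) → ℝ) 0,
      fun j : Fin m => (Pi.single (i.succ : Fin (m + 1)) (1 : ℝ) : Fin (m + 1) → ℝ) j.succ) =
      ((0 : ℝ), (Pi.single i (1 : ℝ) : Fin m → ℝ)) := by
    ext j
    · simp [Pi.single_apply, (Fin.succ_ne_zero i).symm]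
    · simp [Pi.single_apply]
  have e2 : (Pi.single (i.succ : Fin (m + 1)) (1 : ℝ) : Fin (m + 1) → ℝ) 0 = 0 := by
    simp [Pi.single_apply, (Fin.succ_ne_zero i).symm]
  rw [e1, e2]
  simp

end Pool.Agent.U281.CY
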