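import Pool.Agent.Helper717.LT.P_T_all
import Pool.Agent.Helper717.LT.P_T_succ

/-!
# The sharp Lieb-Thirring inequality for `-∂_t² - e^{2t} Δ_y`, kinetic form

`z = (t, y) ∈ ℝ × ℝ^m`; exponents `g ≥ 3/2`; all functions `C¹` with compact support.
-/

set_option autoImplicit false

open MeasureTheory Set Filter Topology Real
open scoped Matrix

namespace Pool.Agent.U281.CY

open LTd

/-- the power of `e^t` -/
noncomputable def kp (m : ℕ) (g : ℝ) : ℝ := m / (g + m / 2 - 1 / 2)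

theorem bco_exp (m : ℕ) {g a : ℝ} (hg : 3 / 2 ≤ g) (ha : 0 < a) (x : ℝ) :
    Real.exp (2 * x) * bco (m / 2) (g + 1 / 2) (a * Real.exp (-(2 * x))) =
      Real.exp (kp m g * x) * bco (m / 2) (g + 1 / 2) a := by
  have hm0 : (0 : ℝ) ≤ (m : ℝ) := Nat.cast_nonneg m
  have hJ : 0 < JJ ((m : ℝ) / 2) (g + 1 / 2) := bco_succ_JJ_pos (by positivity) (by linarith)
  have hd : 0 < g + 1 / 2 + (m : ℝ) / 2 - 1 := by linarith
  unfold bco
  rw [Real.mul_rpow ha.le (Real.exp_pos _).le, ← mul_assoc,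
    Real.mul_rpow (by positivity) (by positivity), ← Real.exp_mul, ← Real.exp_mul,
    mul_comm (Real.exp (kp m g * x)), mul_comm (Real.exp (2 * x)), mul_assoc, ← Real.exp_add]
  congr 2
  unfold kp
  have hd2 : g + (m : ℝ) / 2 - 1 / 2 ≠ 0 := by
    have : 0 < g + (m : ℝ) / 2 - 1 / 2 := by linarith
    exact this.ne'
  have hd3 : g + 1 / 2 + (m : ℝ) / 2 - 1 = g + (m : ℝ) / 2 - 1 / 2 := by ring
  rw [hd3]
  obtain ⟨D, hD⟩ : ∃ D : ℝ, D = g + (m : ℝ) / 2 - 1 / 2 := ⟨_, rfl⟩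
  have hg' : g = D - m / 2 + 1 / 2 := by rw [hD]; ring
  rw [← hD] at hd2 ⊢
  rw [hg']
  field_simp
  ring

theorem T_tw {m : ℕ} {g : ℝ} (hg : 3 / 2 ≤ g) {a : ℝ} (ha : 0 < a) {n : ℕ}
    (w : Fin n → (Fin (m + 1) → ℝ) → ℝ) (l : Fin n → ℝ) (hw : ∀ i, ContDiff ℝ 1 (w i))
    (hc : ∀ i, HasCompactSupport (w i))
    (hgram : ∀ i j, ∫ x, w i x * w j x = if i = j then l i else 0) :
    bco (((m + 1 : ℕ) : ℝ) / 2) g a *
      (∫ z : Fin (m + 1) → ℝ, Real.exp (kp m g * z 0) *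
        (∑ i, w i z ^ 2) ^ pp (g + ((m + 1 : ℕ) : ℝ) / 2)) ≤
      (∫ z, ∑ i, pd 0 (w i) z ^ 2) +
        (∫ z : Fin (m + 1) → ℝ, Real.exp (2 * z 0) * ∑ k : Fin m, ∑ i, pd k.succ (w i) z ^ 2) +
        a * ∑ i, l i ^ pp g := by
  have hT : Tm m (g + 1 / 2) := T_all m (g + 1 / 2) (by linarith)
  have hwc : ∀ i, Continuous (w i) := fun i => (hw i).continuous
  have hm0 : (0 : ℝ) ≤ (m : ℝ) := Nat.cast_nonneg m
  have hsys := slice_sys w hw hc
  have hcw2 : ∀ i j, HasCompactSupport (fun z => w i z * w j z) := fun i j =>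
    (hc i).mul_right (f' := w j)
  have hTot : Tot (RS w) = Matrix.diagonal l := by
    ext i j
    have h1 : ∫ z, w i z * w j z = ∫ x : ℝ, ∫ y : Fin m → ℝ,
        w i (Fin.cons x y : Fin (m + 1) → ℝ) * w j (Fin.cons x y : Fin (m + 1) → ℝ) :=
      slice_int (f := fun z => w i z * w j z) ((hwc i).mul (hwc j)) (hcw2 i j)
    rw [hgram i j] at h1
    rw [Matrix.diagonal_apply]
    exact h1.symm
  obtain ⟨G, hGc, hGs, hG1, hG2⟩ := blockC hsys l hTot hg ha
  have ha' : 0 < bco (1 / 2) g a := bco_pos (by norm_num) (by linarith) ha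
  have hpd : ∀ (k : Fin (m + 1)) (i : Fin n), Continuous (pd k (w i)) ∧
      HasCompactSupport (pd k (w i)) := fun k i => pd_basic (hw i) (hc i) k
  have hsqc : ∀ (k : Fin (m + 1)) (i : Fin n), Continuous (fun z => pd k (w i) z ^ 2) :=
    fun k i => (hpd k i).1.pow 2
  have hsqs : ∀ (k : Fin (m + 1)) (i : Fin n), HasCompactSupport (fun z => pd k (w i) z ^ 2) :=
    fun k i => (hpd k i).2.comp_left (g := fun t : ℝ => t ^ 2) (by norm_num)
  have hsqi : ∀ (k : Fin (m + 1)) (i : Fin n), Integrable (fun z => pd k (w i) z ^ 2) :=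
    fun k i => (hsqc k i).integrable_of_hasCompactSupport (hsqs k i)
  -- the exponent
  have hpp : 0 < pp (g + 1 / 2 + m / 2) := by
    unfold pp
    apply div_pos <;> linarith
  have hexp : g + 1 / 2 + (m : ℝ) / 2 = g + ((m + 1 : ℕ) : ℝ) / 2 := by
    push_cast
    ring
  -- the density
  have hρc : Continuous (fun z : Fin (m + 1) → ℝ => Real.exp (kp m g * z 0) *
      (∑ i, w i z ^ 2) ^ pp (g + 1 / 2 + m / 2)) := by
    refine Continuous.mul (by fun_prop) ?_
    exact (continuous_finsetSum _ fun i _ => (hwc i).pow 2).rpow_const (fun _ => Or.inr hpp.le)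
  have hρs : HasCompactSupport (fun z : Fin (m + 1) → ℝ => Real.exp (kp m g * z 0) *
      (∑ i, w i z ^ 2) ^ pp (g + 1 / 2 + m / 2)) := by
    refine HasCompactSupport.intro (isCompact_iUnion (fun i => hc i)) (fun z hz => ?_)
    have h0 : ∀ i, w i z = 0 := fun i =>
      image_eq_zero_of_notMem_tsupport (fun h => hz (Set.mem_iUnion.2 ⟨i, h⟩))
    have h00 : ∑ i, w i z ^ 2 = 0 := by simp [h0]
    show Real.exp (kp m g * z 0) * (∑ i, w i z ^ 2) ^ pp (g + 1 / 2 + m / 2) = 0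
    rw [h00, Real.zero_rpow hpp.ne', mul_zero]
  -- the gradient part
  have hDc : Continuous (fun z : Fin (m + 1) → ℝ => Real.exp (2 * z 0) *
      ∑ k : Fin m, ∑ i, pd k.succ (w i) z ^ 2) := by
    refine Continuous.mul (by fun_prop) ?_
    exact continuous_finsetSum _ fun k _ => continuous_finsetSum _ fun i _ => hsqc k.succ i
  have hDs : HasCompactSupport (fun z : Fin (m + 1) → ℝ => Real.exp (2 * z 0) *
      ∑ k : Fin m, ∑ i, pd k.succ (w i) z ^ 2) := by
    refine HasCompactSupport.intro (isCompact_iUnion (fun k : Fin m =>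
      isCompact_iUnion (fun i : Fin n => (hsqs k.succ i)))) (fun z hz => ?_)
    have h0 : ∀ (k : Fin m) (i : Fin n), pd k.succ (w i) z ^ 2 = 0 := fun k i =>
      image_eq_zero_of_notMem_tsupport (f := fun z => pd k.succ (w i) z ^ 2)
        (fun h => hz (Set.mem_iUnion.2 ⟨k, Set.mem_iUnion.2 ⟨i, h⟩⟩))
    simp only [h0]
    simp
  -- pointwise inequality
  have hpoint : ∀ x : ℝ, bco (((m + 1 : ℕ) : ℝ) / 2) g a *
      (∫ y : Fin m → ℝ, Real.exp (kp m g * (Fin.cons x y : Fin (m + 1) → ℝ) 0) *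
        (∑ i, w i (Fin.cons x y : Fin (m + 1) → ℝ) ^ 2) ^ pp (g + 1 / 2 + m / 2)) ≤
      (∫ y : Fin m → ℝ, Real.exp (2 * (Fin.cons x y : Fin (m + 1) → ℝ) 0) *
        ∑ k : Fin m, ∑ i, pd k.succ (w i) (Fin.cons x y : Fin (m + 1) → ℝ) ^ 2) + G x := by
    intro x
    obtain ⟨V, r, hV, hV', hr, hR⟩ := specP (sys_psd hsys x)
    have hax : 0 < bco (1 / 2) g a * Real.exp (-(2 * x)) := mul_pos ha' (Real.exp_pos _)
    have h1 := T_slice hax hT (fun i (y : Fin m → ℝ) => w i (Fin.cons x y : Fin (m + 1) → ℝ))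
      (fun i => (slice_pd (hw i) x).1) (fun i => (slice_cont (hwc i) (hc i)).2.2.1 x) V r hV hV' hR
    have h2 := hG1 x V r hV hV' hr hR
    have h3 : ∀ (k : Fin m) (i : Fin n) (y : Fin m → ℝ),
        pd k (fun y : Fin m → ℝ => w i (Fin.cons x y : Fin (m + 1) → ℝ)) y =
          pd k.succ (w i) (Fin.cons x y : Fin (m + 1) → ℝ) := fun k i y =>
      (slice_pd (hw i) x).2 k y
    simp only [h3] at h1
    have h4 := mul_le_mul_of_nonneg_left h1 (Real.exp_pos (2 * x)).le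
    have h5 := bco_exp m hg ha' x
    rw [bco_succ m hg ha] at h5
    have h6 : Real.exp (2 * x) * Real.exp (-(2 * x)) = 1 := by
      rw [← Real.exp_add, add_neg_cancel, Real.exp_zero]
    simp only [Fin.cons_zero]
    rw [integral_const_mul, integral_const_mul]
    set I1 := ∫ y : Fin m → ℝ, (∑ i, w i (Fin.cons x y : Fin (m + 1) → ℝ) ^ 2) ^
      pp (g + 1 / 2 + m / 2) with hI1
    set I2 := ∫ y : Fin m → ℝ, ∑ k : Fin m, ∑ i,
      pd k.succ (w i) (Fin.cons x y : Fin (m + 1) → ℝ) ^ 2 with hI2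
    set Sr := ∑ i, r i ^ pp (g + 1 / 2) with hSr
    have e1 : Real.exp (2 * x) * (bco (m / 2) (g + 1 / 2) (bco (1 / 2) g a *
        Real.exp (-(2 * x))) * I1) = bco (((m + 1 : ℕ) : ℝ) / 2) g a *
        (Real.exp (kp m g * x) * I1) := by
      rw [← mul_assoc, h5]
      ring
    have e2 : Real.exp (2 * x) * (I2 + bco (1 / 2) g a * Real.exp (-(2 * x)) * Sr) =
        Real.exp (2 * x) * I2 + bco (1 / 2) g a * Sr := by
      have : Real.exp (2 * x) * (bco (1 / 2) g a * Real.exp (-(2 * x)) * Sr) =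
          (Real.exp (2 * x) * Real.exp (-(2 * x))) * (bco (1 / 2) g a * Sr) := by ring
      rw [mul_add, this, h6, one_mul]
    rw [e1, e2] at h4
    linarith
  -- integrate
  have hint := integral_mono
    ((ts_slice_integrable hρc hρs).const_mul (bco (((m + 1 : ℕ) : ℝ) / 2) g a))
    ((ts_slice_integrable hDc hDs).add (hGc.integrable_of_hasCompactSupport hGs)) hpoint
  rw [integral_const_mul, ← slice_int hρc hρs] at hint
  have hadd : ∫ x : ℝ, ((fun x : ℝ => ∫ y : Fin m → ℝ,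
      Real.exp (2 * (Fin.cons x y : Fin (m + 1) → ℝ) 0) *
      ∑ k : Fin m, ∑ i, pd k.succ (w i) (Fin.cons x y : Fin (m + 1) → ℝ) ^ 2) + G) x =
      (∫ z : Fin (m + 1) → ℝ, Real.exp (2 * z 0) *
        ∑ k : Fin m, ∑ i, pd k.succ (w i) z ^ 2) + ∫ x, G x := by
    rw [slice_int hDc hDs]
    exact integral_add (ts_slice_integrable hDc hDs) (hGc.integrable_of_hasCompactSupport hGs)
  have htr : ∫ x, (QS w x).trace = ∫ z, ∑ i, pd 0 (w i) z ^ 2 := by
    rw [integral_finsetSum _ (fun i _ => hsqi 0 i)]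
    have h4 : ∀ x, (QS w x).trace = ∑ i, ∫ y : Fin m → ℝ,
        pd 0 (w i) (Fin.cons x y : Fin (m + 1) → ℝ) ^ 2 := by
      intro x
      unfold Matrix.trace
      refine Finset.sum_congr rfl fun i _ => ?_
      simp only [QS, Matrix.diag_apply, Matrix.of_apply, ← sq]
    simp_rw [h4]
    rw [integral_finsetSum _ (fun i _ => ts_slice_integrable (hsqc 0 i) (hsqs 0 i))]
    refine Finset.sum_congr rfl fun i _ => ?_
    exact (slice_int (hsqc 0 i) (hsqs 0 i)).symm
  rw [← hexp]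
  rw [htr] at hG2
  have hint' := hint.trans (le_of_eq hadd)
  linarith

end Pool.Agent.U281.CY
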